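import Pool.Agent.Lib.MP_1e8d1a_an.XN.Defs

/-! The maps between the fibres of a skew product and their mixing: definitions. -/

open MeasureTheory

namespace Pool.Agent.XP

open Pool.Agent.XN (SmB)

/-- The map from the fibre of `z` to the fibre of `g^[n] z`: the product of the `n` fibre maps along
the orbit of `z`. -/
def fib {Z X : Type} (S : Z × X → Z × X) (n : ℕ) (z : Z) (x : X) : X := (S^[n] (z, x)).2

/-- For functions whose derivatives of order `≤ l` are bounded by `K` and `L` the correlations after
the map `T` are at most `c K L`. -/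
def MixMap {X : Type} {D : ℕ} [MeasurableSpace X] (ι : X → Fin D → ℝ) (l : ℕ) (T : X → X)
    (ν : Measure X) (c : ℝ) : Prop :=
  ∀ (u v : X → ℝ) (K L : ℝ), SmB ι l K u → SmB ι l L v →
    |∫ x, u x * v (T x) ∂ν - (∫ x, u x ∂ν) * ∫ x, v x ∂ν| ≤ c * K * L

end Pool.Agent.XP
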