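import Pool.Agent.Lib.MP_1e8d1a_an.XP.T1
import Pool.Agent.Lib.MP_1e8d1a_an.XN.B7
import Pool.Agent.Lib.MP_1e8d1a_an.XN.B8
import Pool.Agent.Lib.MP_1e8d1a_an.XM.Prod

/-! Skew products with exponentially mixing fibres (smooth observables): the points over a periodic
point of the base.  No condition on the dimensions, no condition on the measure. -/

open MeasureTheory Set Filter Topology
open scoped ContDiff

namespace Pool.Agent.XP

open Pool.Agent.XM (bset pd)
open Pool.Agent.XN (SmB MixAt Sys chi_smB core_two)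

/-- If the support of an invariant probability has one point only, then this is a fixed point. -/
theorem fixed_of_dirac {X : Type} [TopologicalSpace X] [CompactSpace X] [T2Space X]
    [MeasurableSpace X] [BorelSpace X] {D : ℕ} {ι : X → Fin D → ℝ} (hc : Continuous ι)
    (hi : Function.Injective ι) {T : X → X} (μ : Measure X) [IsProbabilityMeasure μ]
    (hinv : MeasurePreserving T μ μ) (p : X)
    (hq : ¬ ∃ q, q ≠ p ∧ ∀ O ∈ 𝓝 q, 0 < μ O) : T p = p := by
  have hemb : Topology.IsEmbedding ι := (hc.isClosedEmbedding hi).isEmbedding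
  have hsc : SecondCountableTopology X := hemb.secondCountableTopology
  have h0 : μ ({p}ᶜ : Set X) = 0 := by
    refine measure_null_of_locally_null _ fun q hqp => ?_
    by_contra hne
    push Not at hne
    refine hq ⟨q, hqp, fun O hO => ?_⟩
    exact pos_iff_ne_zero.2 (hne O (mem_nhdsWithin_of_mem_nhds hO))
  have h1 : μ (T ⁻¹' {p}ᶜ) = 0 := by
    rw [hinv.measure_preimage (measurableSet_singleton p).compl.nullMeasurableSet]
    exact h0
  by_contra hF
  have h5 : μ (Set.univ : Set X) = 0 := by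
    refine nonpos_iff_eq_zero.1 ?_
    have h6 : (Set.univ : Set X) ⊆ {p}ᶜ ∪ T ⁻¹' {p}ᶜ := by
      intro x _
      by_cases hx : x = p
      · right
        rw [hx]
        exact hF
      · left
        exact hx
    exact (measure_mono h6).trans ((measure_union_le _ _).trans (by rw [h0, h1, add_zero]))
  rw [measure_univ] at h5
  exact one_ne_zero h5

/-- finitely many positive numbers -/
theorem exists_lower (a : ℕ → ℝ) (M : ℕ) (h : ∀ j, 0 < j → j < M → 0 < a j) :
    ∃ c : ℝ, 0 < c ∧ ∀ j, 0 < j → j < M → c ≤ a j := by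
  induction M with
  | zero => exact ⟨1, one_pos, fun j _ hj => absurd hj (Nat.not_lt_zero j)⟩
  | succ n ih =>
    obtain ⟨c, hc, hcj⟩ := ih fun j h1 h2 => h j h1 (by omega)
    rcases Nat.eq_zero_or_pos n with hn | hn
    · subst hn
      exact ⟨1, one_pos, fun j h1 h2 => absurd h1 (by omega)⟩
    · refine ⟨min c (a n), lt_min hc (h n hn (by omega)), fun j h1 h2 => ?_⟩
      rcases Nat.lt_succ_iff_lt_or_eq.1 h2 with h3 | h3
      · exact (min_le_left _ _).trans (hcj j h1 h3)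
      · rw [h3]
        exact min_le_right _ _

variable {Z X : Type} [TopologicalSpace Z] [TopologicalSpace X] [T2Space X]
  [CompactSpace X] {D D' : ℕ} {κ : Z → Fin D → ℝ} {ι : X → Fin D' → ℝ}

/-- **The exchange over a periodic point of the base.**  The fibre maps along the orbit of `z₀` mix
exponentially; nothing else is needed, neither injectivity nor a condition on the measure `ν` or on
the dimensions. -/
theorem skew_exchange_per [MeasurableSpace X] [BorelSpace X]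
    (hiκ : Function.Injective κ) (hcι : Continuous ι) (hiι : Function.Injective ι)
    (S : Z × X → Z × X) (hSc : Continuous S) (g : Z → Z) (hg : ∀ w, (S w).1 = g w.1)
    (hLip : ∃ Λ : ℝ, 2 ≤ Λ ∧ ∀ w w' : Z × X, pd κ ι (S w) (S w') ≤ Λ * pd κ ι w w')
    (ν : Measure X) [IsProbabilityMeasure ν]
    (hν : ∀ z, MeasurePreserving (fun x => (S (z, x)).2) ν ν) {l : ℕ} {C θ : ℝ} (h0 : 0 < θ)
    (h1 : θ < 1) (z₀ : Z)
    (hmix : ∀ n, MixMap ι l (fib S n z₀) ν (C * θ ^ n))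
    {m : ℕ} (hm : 0 < m) (hz : g^[m] z₀ = z₀) (x₀ : X) (hx : ∀ O ∈ 𝓝 x₀, 0 < ν O) :
    (∃ n : ℕ, 0 < n ∧ S^[n] (z₀, x₀) = (z₀, x₀)) ∨
    ∃ y₀ : X, x₀ ≠ y₀ ∧ ∀ k : ℕ, ∀ ε η : ℝ, 0 < ε → 0 < η →
      ∃ (a b : Z × X) (N : ℕ) (δ : ℝ), 1 ≤ N ∧ 0 < δ ∧ δ ≤ η ∧ pd κ ι a (z₀, x₀) < η ∧
        pd κ ι b (z₀, y₀) < η ∧ pd κ ι (S^[N] a) b < ε * δ ^ k ∧
        pd κ ι (S^[N] b) a < ε * δ ^ k ∧
        ∀ j, 0 < j → j < N → δ ≤ pd κ ι (S^[j] a) a ∧ δ ≤ pd κ ι (S^[j] a) b ∧
          δ ≤ pd κ ι (S^[j] b) a ∧ δ ≤ pd κ ι (S^[j] b) b := by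
  classical
  -- the least period
  obtain ⟨m, hm, hz, hmin⟩ : ∃ m : ℕ, 0 < m ∧ g^[m] z₀ = z₀ ∧
      ∀ j, 0 < j → j < m → g^[j] z₀ ≠ z₀ := by
    have hex : ∃ m : ℕ, 0 < m ∧ g^[m] z₀ = z₀ := ⟨m, hm, hz⟩
    refine ⟨Nat.find hex, (Nat.find_spec hex).1, (Nat.find_spec hex).2, fun j h2 h3 h4 => ?_⟩
    exact Nat.find_min hex h3 ⟨h2, h4⟩
  have hmq : ∀ q : ℕ, g^[m * q] z₀ = z₀ := by
    intro q
    rw [Function.iterate_mul]
    exact Function.iterate_fixed hz q
  -- the return map of the fibre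
  obtain ⟨T, hTd⟩ : ∃ T : X → X, T = fib S m z₀ := ⟨_, rfl⟩
  have hTc : Continuous T := by
    rw [hTd]
    exact fib_continuous hSc m z₀
  have hTn : ∀ (q : ℕ) (x : X), T^[q] x = fib S (m * q) z₀ x := by
    intro q
    induction q with
    | zero => intro x; rfl
    | succ q ih =>
      intro x
      rw [Function.iterate_succ_apply', ih, hTd, show m * (q + 1) = m + m * q by ring,
        fib_add hg m (m * q) z₀ x, hmq]
  have hTpres : MeasurePreserving T ν ν := by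
    rw [hTd]
    exact fib_mp hg hν m z₀
  have hSq : ∀ (q : ℕ) (x : X), S^[m * q] (z₀, x) = (z₀, T^[q] x) := by
    intro q x
    rw [iter_eq hg, hmq, hTn]
  have hS1 : ∀ x : X, S^[m] (z₀, x) = (z₀, T x) := by
    intro x
    have h2 := hSq 1 x
    rwa [mul_one, Function.iterate_one] at h2
  by_cases hq : ∃ q, q ≠ x₀ ∧ ∀ O ∈ 𝓝 q, 0 < ν O
  swap
  · left
    refine ⟨m, hm, ?_⟩
    rw [hS1, fixed_of_dirac hcι hiι ν hTpres x₀ hq]
  right
  obtain ⟨y₀, hyx, hy⟩ := hq
  refine ⟨y₀, hyx.symm, ?_⟩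
  -- the standing assumptions for the return map
  obtain ⟨R, hR⟩ : ∃ R : ℝ, ∀ x, ‖ι x‖ ≤ R := by
    obtain ⟨R, hR⟩ := (isCompact_range hcι).isBounded.exists_norm_le
    exact ⟨R, fun x => hR _ ⟨x, rfl⟩⟩
  obtain ⟨Λ, hΛ, hl⟩ := hLip
  have hiter : ∀ (n : ℕ) (w w' : Z × X), pd κ ι (S^[n] w) (S^[n] w') ≤ Λ ^ n * pd κ ι w w' := by
    intro n
    induction n with
    | zero => intro w w'; simp
    | succ n ih =>
      intro w w'
      rw [Function.iterate_succ_apply', Function.iterate_succ_apply']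
      calc pd κ ι (S (S^[n] w)) (S (S^[n] w')) ≤ Λ * pd κ ι (S^[n] w) (S^[n] w') := hl _ _
        _ ≤ Λ * (Λ ^ n * pd κ ι w w') := mul_le_mul_of_nonneg_left (ih w w') (by linarith)
        _ = Λ ^ (n + 1) * pd κ ι w w' := by ring
  have hpdz : ∀ x x' : X, pd κ ι (z₀, x) (z₀, x') = ‖ι x - ι x'‖ := by
    intro x x'
    show max ‖κ z₀ - κ z₀‖ ‖ι x - ι x'‖ = _
    rw [sub_self, norm_zero]
    exact max_eq_right (norm_nonneg _)
  have hTl : ∀ x x', ‖ι (T x) - ι (T x')‖ ≤ Λ ^ m * ‖ι x - ι x'‖ := by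
    intro x x'
    have h2 := hiter m (z₀, x) (z₀, x')
    rwa [hS1, hS1, hpdz, hpdz] at h2
  have hnd : ∀ x : X, ν {x} ≠ 1 := by
    intro x hx1
    have h2 : ν ({x}ᶜ : Set X) = 0 := by
      rw [measure_compl (measurableSet_singleton x) (measure_ne_top ν _), hx1, measure_univ,
        tsub_self]
    have h3 : ∀ z : X, (∀ O ∈ 𝓝 z, 0 < ν O) → z = x := by
      intro z hz
      by_contra hne
      exact (hz _ (isOpen_compl_singleton.mem_nhds hne)).ne' h2
    exact hyx ((h3 y₀ hy).trans (h3 x₀ hx).symm)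
  have hΛm : (2 : ℝ) ≤ Λ ^ m := by
    calc (2 : ℝ) ≤ Λ := hΛ
      _ = Λ ^ 1 := (pow_one _).symm
      _ ≤ Λ ^ m := pow_le_pow_right₀ (by linarith) hm
  obtain ⟨B, hB1, hB⟩ := chi_smB D' l
  have hsys : Sys ι l T ν (max (B ^ 2 * C) 1) (θ ^ m) (Λ ^ m) (max R 0) :=
    { cont := hcι
      contF := hTc
      inj := hiι
      one_le_C := le_max_right _ _
      θ_pos := pow_pos h0 m
      θ_lt := pow_lt_one₀ h0.le h1 hm.ne'
      two_le_Λ := hΛm
      R_nonneg := le_max_right _ _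
      bound := fun x => (hR x).trans (le_max_left _ _)
      lip := hTl
      mix := by
        intro n
        have h2 : MixAt ι l T ν n (C * (θ ^ m) ^ n) := by
          intro u v K L hu hv
          simp only [hTn]
          rw [← pow_mul]
          exact hmix (m * n) u v K L hu hv
        refine (h2.bMix hB).mono ?_
        rw [← mul_assoc]
        exact mul_le_mul_of_nonneg_right (le_max_left _ _) (by positivity)
      nd := hnd }
  -- the separation of the periodic orbit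
  obtain ⟨c₀, hc₀, hsep⟩ := exists_lower (fun j => ‖κ (g^[j] z₀) - κ z₀‖) m fun j h2 h3 =>
    norm_pos_iff.2 (sub_ne_zero.2 fun h => hmin j h2 h3 (hiκ h))
  have hpos : ∀ x : X, (∀ O ∈ 𝓝 x, 0 < ν O) → ∀ η : ℝ, 0 < η → 0 < ν.real (bset ι (ι x) η) := by
    intro x hx η hη
    have h2 : bset ι (ι x) η ∈ 𝓝 x := by
      have h3 : IsOpen (bset ι (ι x) η) :=
        isOpen_lt (hcι.sub continuous_const).norm continuous_const
      refine h3.mem_nhds ?_
      show ‖ι x - ι x‖ < η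
      rw [sub_self, norm_zero]
      exact hη
    exact ENNReal.toReal_pos (hx _ h2).ne' (measure_ne_top ν _)
  intro k ε η hε hη
  obtain ⟨x, y, N, δ, c1, c2, c3, c4, c5, c6, c7, c8⟩ := core_two hcι hTc hTpres k l
    (hsys.few _) (ι x₀) (ι y₀) (hpos x₀ hx) (hpos y₀ hy) hε (lt_min hη hc₀)
  have hη1 : min η c₀ ≤ η := min_le_left _ _
  have hη2 : min η c₀ ≤ c₀ := min_le_right _ _
  refine ⟨(z₀, x), (z₀, y), m * N, δ, Nat.mul_pos hm c1, c2, c3.trans hη1, ?_, ?_, ?_, ?_, ?_⟩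
  · rw [hpdz]
    exact c4.trans_le hη1
  · rw [hpdz]
    exact c5.trans_le hη1
  · rw [hSq, hpdz]
    exact c6
  · rw [hSq, hpdz]
    exact c7
  · intro j hj hjN
    rcases Nat.eq_zero_or_pos (j % m) with h2 | h2
    · obtain ⟨q, rfl⟩ := Nat.dvd_of_mod_eq_zero h2
      have hq0 : 0 < q := Nat.pos_of_mul_pos_left hj
      have hqN : q < N := lt_of_mul_lt_mul_left hjN (Nat.zero_le m)
      obtain ⟨d1, d2, d3, d4⟩ := c8 q hq0 hqN
      rw [hSq, hSq, hpdz, hpdz, hpdz, hpdz]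
      exact ⟨d1, d2, d3, d4⟩
    · have h3 : g^[j] z₀ = g^[j % m] z₀ := by
        conv_lhs => rw [← Nat.mod_add_div j m]
        rw [Function.iterate_add_apply, hmq]
      have h4 : δ ≤ ‖κ (g^[j] z₀) - κ z₀‖ := by
        rw [h3]
        exact (c3.trans hη2).trans (hsep _ h2 (Nat.mod_lt j hm))
      have h5 : ∀ u v : X, δ ≤ pd κ ι (S^[j] (z₀, u)) (z₀, v) := by
        intro u v
        rw [iter_eq hg]
        exact h4.trans (le_max_left _ _)
      exact ⟨h5 x x, h5 x y, h5 y x, h5 y y⟩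

end Pool.Agent.XP
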