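import Pool.Agent.Lib.MP_1e8d1a_an.XP.SymK2
import Pool.Agent.Lib.MP_1e8d1a_an.XM.Sym6

/-! Extensions by compact connected groups of symmetries over a closed invariant set: the form of the
statement. -/

open scoped ContDiff Manifold Topology
open Filter

namespace Pool.Agent.XP

open Pool.Agent.SC
open Pool.Agent.XM (IsEmb equi_sym)

variable {E : Type} [NormedAddCommGroup E] [NormedSpace ℝ E] {H : Type} [TopologicalSpace H]
  {I : ModelWithCorners ℝ E H} {W : Type} [TopologicalSpace W] [ChartedSpace H W]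
  {X : Type} {D D' : ℕ} {K : Set W} {ι : W → Fin D → ℝ}
  {κ : X → Fin D' → ℝ} {Φ : X → X} {π : W → X}

/-- no symmetries: a bi-Lipschitz map of `K` onto `X` -/
theorem SymExt.of_bijective {r : ℕ∞} {F : W → W} (hK : ∀ x ∈ K, F x ∈ K)
    (hπ : ∀ x ∈ K, π (F x) = Φ (π x)) (σ : X → W) (hσ : ∀ a, σ a ∈ K ∧ π (σ a) = a)
    (hσ' : ∀ x ∈ K, σ (π x) = x) {L : ℝ}
    (h1 : ∀ x ∈ K, ∀ x' ∈ K, ‖κ (π x) - κ (π x')‖ ≤ L * ‖ι x - ι x'‖)
    (h2 : ∀ x ∈ K, ∀ x' ∈ K, ‖ι x - ι x'‖ ≤ L * ‖κ (π x) - κ (π x')‖) :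
    SymExt I r K ι F κ Φ π := by
  refine ⟨fun x hx => ⟨hK x hx, hπ x hx⟩, ⟨L, h1, fun x hx a => ⟨σ a, (hσ a).1, (hσ a).2, ?_⟩⟩, ℝ,
    inferInstance, inferInstance, inferInstance, fun u => u.2, 0, ?_, fun v x hx => ⟨hx, rfl⟩,
    fun x hx x' hx' h => ⟨0, ?_⟩⟩
  · have h3 := h2 (σ a) (hσ a).1 x hx
    rwa [(hσ a).2] at h3
  · exact
      { smooth := contMDiff_snd
        zero := fun x => rfl
        add := fun s t v x => rfl
        comm := fun v x => rfl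
        bound := fun v => ⟨0, by simp, fun x => rfl⟩ }
  · show x = x'
    rw [← hσ' x hx, ← hσ' x' hx', h]

theorem SymExt.lipExtOn [FiniteDimensional ℝ E] [IsManifold I ∞ W] [I.Boundaryless] [CompactSpace W]
    [T2Space W] (hι : IsEmb I ι) {r : ℕ∞} (hr : 1 ≤ r) {F : W → W} (h : SymExt I r K ι F κ Φ π) :
    ∃ (P : Type) (_ : NormedAddCommGroup P) (_ : NormedSpace ℝ P) (ψ : P × W → W) (R L : ℝ),
      LipExtOn I r K ι F κ Φ π ψ R L := by
  obtain ⟨h1, ⟨L₁, h2, h3⟩, P, i1, i2, i3, ψ, R, h4, h5, h6⟩ := h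
  obtain ⟨L₂, hL₂⟩ := equi_sym hι hr h4
  refine ⟨P, i1, i2, ψ, R, max L₁ L₂,
    { sym := h4
      maps := fun x hx => (h1 x hx).1
      smaps := fun v x hx => (h5 v x hx).1
      semi := fun x hx => (h1 x hx).2
      inv := fun v x hx => (h5 v x hx).2
      fib := h6
      lip := fun x hx x' hx' => (h2 x hx x' hx').trans
        (mul_le_mul_of_nonneg_right (le_max_left _ _) (norm_nonneg _))
      lift := fun x hx a => ?_
      equi := fun v x x' => (hL₂ v x x').trans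
        (mul_le_mul_of_nonneg_right (le_max_right _ _) (norm_nonneg _)) }⟩
  obtain ⟨x', e0, e1, e2⟩ := h3 x hx a
  exact ⟨x', e0, e1, e2.trans (mul_le_mul_of_nonneg_right (le_max_left _ _) (norm_nonneg _))⟩

end Pool.Agent.XP
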