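import Pool.Agent.Lib.MP_1e8d1a_an.XP.T4R
import Pool.Agent.Lib.MP_1e8d1a_an.XM.Conj
import Pool.Agent.Lib.MP_1e8d1a_an.XM.Nw
import Pool.Agent.Lib.MP_1e8d1a_an.XM.Main

/-! Skew products with mixing fibres over an arbitrary map: the exchange of two points over a
nonwandering point of the base. -/

open scoped ContDiff Manifold Topology
open MeasureTheory Set Filter

namespace Pool.Agent.XP

open Pool.Agent.SC
open Pool.Agent.XM (IsEmb pd norm_append_sub ball_centre support_pos returns_kappa bset)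
open Pool.Agent.XN (chi_smB)

section

variable {E : Type} [NormedAddCommGroup E] [NormedSpace ℝ E] [FiniteDimensional ℝ E]
  {H : Type} [TopologicalSpace H] {I : ModelWithCorners ℝ E H} [I.Boundaryless]
  {Z : Type} [TopologicalSpace Z] [T2Space Z] [ChartedSpace H Z] [IsManifold I ∞ Z] [CompactSpace Z]

/-- Closed manifolds satisfy the packing bound with the exponent `dim Z`. -/
theorem packing_of_emb {D : ℕ} {κ : Z → Fin D → ℝ} (h : IsEmb I κ) (z₀ : Z) :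
    Packing κ z₀ (Module.finrank ℝ E) := by
  obtain ⟨K, η, hK, hη, hp⟩ := h.packing z₀
  refine ⟨K, η / 2, hK, by positivity, ?_⟩
  intro z hz T c ρ s hs hsρ hρ hc hsep
  rw [Real.rpow_natCast]
  refine hp T c z ρ s hs hsρ (by linarith) (by linarith) (fun i hi => ?_) hc hsep
  have h1 := hc i hi
  have h2 : κ (c i) - κ z₀ = (κ (c i) - κ z) + (κ z - κ z₀) := by abel
  rw [h2]
  exact (norm_add_le _ _).trans_lt (by linarith)

end

section

variable {X : Type} [TopologicalSpace X] [CompactSpace X] [MeasurableSpace X] [BorelSpace X]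
  {D' : ℕ} {ι : X → Fin D' → ℝ}

/-- There is a second point in the support. -/
theorem second_point (hc : Continuous ι) (hinj : Function.Injective ι) (ν : Measure X)
    [IsProbabilityMeasure ν] {d C₁ : ℝ} (hd : 0 < d)
    (hball : ∀ (x : X) (ρ : ℝ), 0 < ρ → ρ ≤ 1 → ν.real {z | ‖ι z - ι x‖ < ρ} ≤ C₁ * ρ ^ d)
    (x₀ : X) : ∃ y₀, x₀ ≠ y₀ ∧ ∀ O ∈ 𝓝 y₀, 0 < ν O := by
  by_contra hq
  push Not at hq
  have hemb : Topology.IsEmbedding ι := (hc.isClosedEmbedding hinj).isEmbedding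
  have hsc : SecondCountableTopology X := hemb.secondCountableTopology
  have h0 : ν ({x₀}ᶜ : Set X) = 0 := by
    refine measure_null_of_locally_null _ fun q hqp => ?_
    have hne : x₀ ≠ q := fun h => hqp h.symm
    obtain ⟨O, hO, hO0⟩ := hq q hne
    exact ⟨O, mem_nhdsWithin_of_mem_nhds hO, nonpos_iff_eq_zero.1 hO0⟩
  have h1 : ∀ ρ : ℝ, 0 < ρ → ρ ≤ 1 → ν.real {x₀} ≤ C₁ * ρ ^ d := by
    intro ρ h2 h3
    refine le_trans (measureReal_mono ?_) (hball x₀ ρ h2 h3)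
    intro z hz
    rw [mem_singleton_iff] at hz
    show ‖ι z - ι x₀‖ < ρ
    rw [hz, sub_self, norm_zero]
    exact h2
  have h2 : Tendsto (fun ρ : ℝ => C₁ * ρ ^ d) (𝓝[>] 0) (𝓝 0) := by
    have h3 : Tendsto (fun ρ : ℝ => ρ ^ d) (𝓝[>] 0) (𝓝 0) := by
      have h4 := (Real.continuousAt_rpow_const (0 : ℝ) d (Or.inr hd.le)).tendsto
      rw [Real.zero_rpow hd.ne'] at h4
      exact h4.mono_left nhdsWithin_le_nhds
    simpa using h3.const_mul C₁
  have h3 : ν.real {x₀} ≤ 0 := by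
    refine ge_of_tendsto h2 ?_
    filter_upwards [Ioc_mem_nhdsGT (zero_lt_one' ℝ)] with ρ hρ
    exact h1 ρ hρ.1 hρ.2
  have h4 : ν {x₀} = 0 := by
    have h5 : ν.real {x₀} = 0 := le_antisymm h3 measureReal_nonneg
    rw [Measure.real, ENNReal.toReal_eq_zero_iff] at h5
    exact h5.resolve_right (measure_ne_top ν _)
  have h5 : ν (Set.univ : Set X) = 0 := by
    rw [← Set.union_compl_self {x₀}]
    exact nonpos_iff_eq_zero.1 ((measure_union_le _ _).trans (by rw [h4, h0, add_zero]))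
  rw [measure_univ] at h5
  exact one_ne_zero h5

end

section

variable {Z X : Type} [TopologicalSpace Z] [T2Space Z] [TopologicalSpace X] [T2Space X]
  [CompactSpace X] [MeasurableSpace X] [BorelSpace X]

/-- **The exchange of two points over a nonwandering point of the base** for skew products with
mixing fibres over an arbitrary map `g`. -/
theorem skew_exchange {D D' : ℕ} {κ : Z → Fin D → ℝ} {ι : X → Fin D' → ℝ} (hcκ : Continuous κ)
    (hcι : Continuous ι) (hinj : Function.Injective ι) {r : ℕ∞} (hr : 1 ≤ r)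
    (S : Z × X → Z × X) (hSc : Continuous S) (g : Z → Z) (hg : ∀ w, (S w).1 = g w.1)
    (hlip : ∃ Λ : ℝ, 1 ≤ Λ ∧ ∀ w w' : Z × X,
      ‖Fin.append (κ (S w).1) (ι (S w).2) - Fin.append (κ (S w').1) (ι (S w').2)‖ ≤
        Λ * ‖Fin.append (κ w.1) (ι w.2) - Fin.append (κ w'.1) (ι w'.2)‖)
    (ν : Measure X) [IsProbabilityMeasure ν]
    (hν : ∀ z, MeasurePreserving (fun x => (S (z, x)).2) ν ν) {d C₁ : ℝ} (hd : 0 < d)
    (hball : ∀ (x : X) (ρ : ℝ), 0 < ρ → ρ ≤ 1 → ν.real {y | ‖ι y - ι x‖ < ρ} ≤ C₁ * ρ ^ d)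
    (z₀ : Z) (hmix : ∀ k : ℕ, 1 ≤ k → (k : ℕ∞) ≤ r → ∃ (e : ℝ) (l : ℕ) (C κm : ℝ),
      Packing κ z₀ e ∧
      D' + 2 * l + d < κm * d ∧ (k * (2 * D' + 2 * l) : ℝ) < κm * (d - ((k : ℝ) - 1) * e) ∧
      ∀ z n, MixMap ι l (fib S n z) ν (C * ((n : ℝ) + 1) ^ (-κm)))
    (hz : ∀ O ∈ 𝓝 z₀, ∃ n : ℕ, 0 < n ∧ ∃ z ∈ O, g^[n] z ∈ O)
    (x₀ : X) (hx : ∀ O ∈ 𝓝 x₀, 0 < ν O) :
    ∃ y₀ : X, x₀ ≠ y₀ ∧ ∀ k : ℕ, (k : ℕ∞) ≤ r → ∀ ε η : ℝ, 0 < ε → 0 < η →
      ∃ (a b : Z × X) (N : ℕ) (δ : ℝ), 1 ≤ N ∧ 0 < δ ∧ δ ≤ η ∧ pd κ ι a (z₀, x₀) < η ∧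
        pd κ ι b (z₀, y₀) < η ∧ pd κ ι (S^[N] a) b < ε * δ ^ k ∧ pd κ ι (S^[N] b) a < ε * δ ^ k ∧
        ∀ j, 0 < j → j < N → δ ≤ pd κ ι (S^[j] a) a ∧ δ ≤ pd κ ι (S^[j] a) b ∧
          δ ≤ pd κ ι (S^[j] b) a ∧ δ ≤ pd κ ι (S^[j] b) b := by
  have hX : Nonempty X := ⟨x₀⟩
  have hgc : Continuous g := by
    have h2 : g = fun z => (S (z, x₀)).1 := funext fun z => (hg (z, x₀)).symm
    rw [h2]
    exact continuous_fst.comp (hSc.comp (Continuous.prodMk_left x₀))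
  obtain ⟨Λ, hΛ, hl⟩ := hlip
  obtain ⟨R, hR⟩ : ∃ R : ℝ, ∀ x, ‖ι x‖ ≤ R := by
    obtain ⟨R, hR⟩ := (isCompact_range hcι).isBounded.exists_norm_le
    exact ⟨R, fun x => hR _ ⟨x, rfl⟩⟩
  have h2d : (0 : ℝ) ≤ 2 ^ d := Real.rpow_nonneg (by norm_num) _
  obtain ⟨y₀, hxy, hy⟩ := second_point hcι hinj ν hd hball x₀
  have hlate : LateReturns κ g z₀ := by
    intro ρ n₁ hρ
    obtain ⟨z, m, h3, h4, h5⟩ := returns_kappa hcκ g hgc z₀ hz ρ hρ n₁
    exact ⟨m, h3, z, h4, h5⟩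
  refine ⟨y₀, hxy, ?_⟩
  intro k hk ε η hε hη
  have hk1 : ((max k 1 : ℕ) : ℕ∞) ≤ r := by
    rcases le_total k 1 with h | h
    · rw [max_eq_right h]
      exact_mod_cast hr
    · rw [max_eq_left h]
      exact hk
  obtain ⟨e, l, C, κm, hpack, hκ1, hκ2, hmix⟩ := hmix (max k 1) (le_max_right _ _) hk1
  obtain ⟨k', hk'⟩ : ∃ k' : ℕ, k' = max k 1 := ⟨_, rfl⟩
  have hk'1 : 1 ≤ k' := by rw [hk']; exact le_max_right _ _
  rw [← hk'] at hκ2
  have hk'R : (1 : ℝ) ≤ k' := by exact_mod_cast hk'1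
  have hD0 : (0 : ℝ) ≤ D' := Nat.cast_nonneg _
  have hl0 : (0 : ℝ) ≤ l := Nat.cast_nonneg _
  have hS0 : 0 < (D' : ℝ) + 2 * l + d := by linarith
  have hκm : 0 < κm := by
    by_contra hneg
    have h3 : κm * d ≤ 0 := mul_nonpos_of_nonpos_of_nonneg (not_lt.1 hneg) hd.le
    linarith
  obtain ⟨γ, hγ⟩ : ∃ γ : ℝ, γ = κm / (D' + 2 * l + d) := ⟨_, rfl⟩
  have hγ0 : 0 < γ := by rw [hγ]; positivity
  have hγS : γ * (D' + 2 * l + d) = κm := by rw [hγ]; field_simp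
  have hγd : 1 < γ * d := by
    rw [hγ, div_mul_eq_mul_div, lt_div_iff₀ hS0]
    linarith
  obtain ⟨B, hB1, hB⟩ := chi_smB D' l
  have hbm : ∀ z n, Pool.Agent.XN.BMix ι l (fib S n z) ν 1
      (B ^ 2 * C * ((n : ℝ) + 1) ^ (-(γ * (D' + 2 * l + d)))) := by
    intro z n
    rw [hγS]
    have h3 := (hmix z n).bMix hB
    rwa [← mul_assoc] at h3
  have hC : 0 ≤ B ^ 2 * C := by
    have h3 := (hbm z₀ 0).nonneg
    simpa using h3
  have sk : Skew κ ι (fun w : Z × X => Fin.append (κ w.1) (ι w.2)) S g ν l (B ^ 2 * C) γ Λ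
      (max R 0) (max (C₁ * 2 ^ d) (2 ^ d)) d :=
    { contZ := hcκ
      contX := hcι
      contF := hSc
      fst := hg
      C₀_nonneg := hC
      γ_pos := hγ0
      one_le_Λ := hΛ
      R_nonneg := le_max_right _ _
      bound := fun x => (hR x).trans (le_max_left _ _)
      dist_max := fun w w' => norm_append_sub _ _ _ _
      lip := hl
      inv := hν
      mix := hbm
      C₁_nonneg := h2d.trans (le_max_right _ _)
      d_pos := hd
      γd := hγd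
      ball := ball_centre ν hd hball }
  obtain ⟨τ, hτ1, hτ2⟩ : ∃ τ : ℝ, (2 * D' + 2 * l : ℝ) / κm < τ ∧
      τ < (d - ((k' : ℝ) - 1) * e) / k' :=
    exists_between (by
      rw [div_lt_div_iff₀ hκm (by linarith)]
      linarith)
  have hτ0 : 0 < τ := lt_of_le_of_lt (by positivity) hτ1
  rw [div_lt_iff₀ hκm] at hτ1
  rw [lt_div_iff₀ (by linarith)] at hτ2
  obtain ⟨w, w', N, δ, c1, c2, c3, c4, c5, c6, c7, c8, c9, c10⟩ := sk.core (r := k') hk'1 hτ0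
    (by linarith) (by rw [hγS]; exact hτ1) z₀ hpack hlate (ι x₀) (ι y₀)
    (support_pos hcι ν hx) (support_pos hcι ν hy) hε (lt_min hη one_pos)
  have hδk : ε * δ ^ k' ≤ ε * δ ^ k := by
    refine mul_le_mul_of_nonneg_left ?_ hε.le
    rw [hk']
    exact pow_le_pow_of_le_one c2.le (c3.trans (min_le_right _ _)) (le_max_left _ _)
  have hη1 : min η 1 ≤ η := min_le_left _ _
  refine ⟨w, w', N, δ, c1, c2, c3.trans hη1, max_lt (c4.trans_le hη1) (c5.trans_le hη1),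
    max_lt (c6.trans_le hη1) (c7.trans_le hη1), ?_, ?_, ?_⟩
  · rw [norm_append_sub] at c8
    exact c8.trans_le hδk
  · rw [norm_append_sub] at c9
    exact c9.trans_le hδk
  · intro j hj hjN
    have c11 := c10 j hj hjN
    simp only [norm_append_sub] at c11
    exact c11

end

end Pool.Agent.XP
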