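import Pool.Agent.Lib.MP_1e8d1a_an.XP.MixDefs2
import Pool.Agent.Lib.MP_1e8d1a_an.XP.T5R
import Pool.Agent.Lib.MP_1e8d1a_an.XP.Per
import Pool.Agent.Lib.MP_1e8d1a_an.XP.SymK3

/-! Closed invariant sets on which the map is an extension, by a compact connected group of
symmetries, of a skew product with mixing fibres. -/

open scoped ContDiff Manifold Topology
open MeasureTheory Set Filter

namespace Pool.Agent.XP

open Pool.Agent.SC
open Pool.Agent.XM (IsEmb pd norm_append_sub)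

theorem append_injective {Z X : Type} {D D' : ℕ} {κ : Z → Fin D → ℝ} {ι : X → Fin D' → ℝ}
    (hκ : Function.Injective κ) (hι : Function.Injective ι) :
    Function.Injective fun w : Z × X => Fin.append (κ w.1) (ι w.2) := by
  intro a b hab
  have h1 : ‖Fin.append (κ a.1) (ι a.2) - Fin.append (κ b.1) (ι b.2)‖ = 0 := by
    have h2 : Fin.append (κ a.1) (ι a.2) = Fin.append (κ b.1) (ι b.2) := hab
    rw [h2, sub_self, norm_zero]
  rw [norm_append_sub] at h1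
  have h3 : ‖κ a.1 - κ b.1‖ = 0 :=
    le_antisymm ((le_max_left _ _).trans h1.le) (norm_nonneg _)
  have h4 : ‖ι a.2 - ι b.2‖ = 0 :=
    le_antisymm ((le_max_right _ _).trans h1.le) (norm_nonneg _)
  exact Prod.ext (hκ (sub_eq_zero.1 (norm_eq_zero.1 h3))) (hι (sub_eq_zero.1 (norm_eq_zero.1 h4)))

theorem append_continuous {Z X : Type} [TopologicalSpace Z] [TopologicalSpace X] {D D' : ℕ}
    {κ : Z → Fin D → ℝ} {ι : X → Fin D' → ℝ} (hκ : Continuous κ) (hι : Continuous ι) :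
    Continuous fun w : Z × X => Fin.append (κ w.1) (ι w.2) := by
  refine continuous_pi fun i => ?_
  refine Fin.addCases (fun i => ?_) (fun i => ?_) i
  · simp only [Fin.append_left]
    exact (continuous_apply i).comp (hκ.comp continuous_fst)
  · simp only [Fin.append_right]
    exact (continuous_apply i).comp (hι.comp continuous_snd)

variable {E₀ : Type} [NormedAddCommGroup E₀] [NormedSpace ℝ E₀] [FiniteDimensional ℝ E₀]
  {H₀ : Type} [TopologicalSpace H₀] {I₀ : ModelWithCorners ℝ E₀ H₀} [I₀.Boundaryless]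
  {W : Type} [TopologicalSpace W] [T2Space W] [ChartedSpace H₀ W] [IsManifold I₀ ∞ W] [CompactSpace W]

/-- The base map of an extension is Lipschitz. -/
theorem LipExtOn.base_lip {D₀ D : ℕ} {K : Set W} {ι : W → Fin D₀ → ℝ} (hι : IsEmb I₀ ι) {r : ℕ∞}
    (hr : 1 ≤ r) (F : W ≃ₘ^r⟮I₀, I₀⟯ W) {Y : Type} {κ : Y → Fin D → ℝ} {Φ : Y → Y} {π : W → Y}
    {P : Type} [NormedAddCommGroup P] [NormedSpace ℝ P] {ψ : P × W → W} {R L : ℝ}
    (h : LipExtOn I₀ r K ι F κ Φ π ψ R L) {p : W} (hpK : p ∈ K) :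
    ∃ Λ : ℝ, 2 ≤ Λ ∧ ∀ a b, ‖κ (Φ a) - κ (Φ b)‖ ≤ Λ * ‖κ a - κ b‖ := by
  have hr' : (1 : WithTop ℕ∞) ≤ (r : WithTop ℕ∞) := by exact_mod_cast hr
  obtain ⟨Λ, hΛ, hl⟩ := hι.lip (F := F) (F.contMDiff_toFun.of_le hr')
  have hL : 0 ≤ max L 0 := le_max_right _ _
  refine ⟨max 2 (max L 0 * (Λ * max L 0)), le_max_left _ _, fun a b => ?_⟩
  obtain ⟨x, hxK, hx, -⟩ := h.lift p hpK a
  obtain ⟨x', hxK', hx', hxx⟩ := h.lift x hxK b
  rw [hx] at hxx
  have h1 : ‖κ (Φ a) - κ (Φ b)‖ ≤ max L 0 * (Λ * max L 0) * ‖κ a - κ b‖ := by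
    calc ‖κ (Φ a) - κ (Φ b)‖ = ‖κ (π (F x)) - κ (π (F x'))‖ := by
          rw [h.semi _ hxK, h.semi _ hxK', hx, hx']
      _ ≤ L * ‖ι (F x) - ι (F x')‖ := h.lip _ (h.maps _ hxK) _ (h.maps _ hxK')
      _ ≤ max L 0 * ‖ι (F x) - ι (F x')‖ :=
          mul_le_mul_of_nonneg_right (le_max_left _ _) (norm_nonneg _)
      _ ≤ max L 0 * (Λ * ‖ι x - ι x'‖) := mul_le_mul_of_nonneg_left (hl _ _) hL
      _ = max L 0 * (Λ * ‖ι x' - ι x‖) := by rw [norm_sub_rev (ι x)]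
      _ ≤ max L 0 * (Λ * (max L 0 * ‖κ b - κ a‖)) := by
          refine mul_le_mul_of_nonneg_left (mul_le_mul_of_nonneg_left (hxx.trans ?_) (by linarith)) hL
          exact mul_le_mul_of_nonneg_right (le_max_left _ _) (norm_nonneg _)
      _ = max L 0 * (Λ * max L 0) * ‖κ a - κ b‖ := by rw [norm_sub_rev (κ b)]; ring
  exact h1.trans (mul_le_mul_of_nonneg_right (le_max_right _ _) (norm_nonneg _))

variable {Z : Type} [TopologicalSpace Z] [T2Space Z] [CompactSpace Z]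
  {X : Type} [TopologicalSpace X] [T2Space X] [CompactSpace X] [MeasurableSpace X] [BorelSpace X]

/-- **Closing at the points of a closed invariant set on which the map is an extension of a skew
product with mixing fibres.** -/
theorem closable_of_mixingAt {D₀ D D' : ℕ} {κ : Z → Fin D → ℝ} {ι' : X → Fin D' → ℝ}
    (hκ : Continuous κ) (hκi : Function.Injective κ) (hι' : Continuous ι')
    (hιi' : Function.Injective ι') {ι : W → Fin D₀ → ℝ} (hι : IsEmb I₀ ι) {r : ℕ∞} (hr : 1 ≤ r)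
    (F : W ≃ₘ^r⟮I₀, I₀⟯ W) {K : Set W} (hK : IsClosed K) (S : Z × X → Z × X) (π : W → Z × X)
    (h : SymExt I₀ r K ι F (fun v : Z × X => Fin.append (κ v.1) (ι' v.2)) S π) (p : W)
    (hpK : p ∈ K) (hmix : MixingAt r κ ι' S (π p)) : Closable I₀ F p := by
  obtain ⟨P, i1, i2, ψ, R, L, h'⟩ := h.lipExtOn hι hr
  obtain ⟨g, ν, hg, hν, hinv, hx, hmix⟩ := hmix
  obtain ⟨Λ, hΛ, hl⟩ := h'.base_lip hι hr F hpK
  have hemb : Topology.IsEmbedding fun v : Z × X => Fin.append (κ v.1) (ι' v.2) :=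
    ((append_continuous hκ hι').isClosedEmbedding (append_injective hκi hιi')).isEmbedding
  have hSc : Continuous S := by
    rw [hemb.continuous_iff, continuous_iff_continuousAt]
    intro a
    rw [ContinuousAt, tendsto_iff_norm_sub_tendsto_zero]
    have h2 : Tendsto (fun b : Z × X => Λ * ‖Fin.append (κ b.1) (ι' b.2) -
        Fin.append (κ a.1) (ι' a.2)‖) (𝓝 a) (𝓝 0) := by
      have h3 : Continuous fun b : Z × X => Λ * ‖Fin.append (κ b.1) (ι' b.2) -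
          Fin.append (κ a.1) (ι' a.2)‖ :=
        continuous_const.mul ((append_continuous hκ hι').sub continuous_const).norm
      have h4 := h3.tendsto a
      simpa using h4
    exact squeeze_zero (fun b => norm_nonneg _) (fun b => hl b a) h2
  have key : ∀ y₀ : X, (π p).2 ≠ y₀ → (∀ k : ℕ, (k : ℕ∞) ≤ r → ∀ ε η : ℝ, 0 < ε → 0 < η →
      ∃ (a b : Z × X) (N : ℕ) (δ : ℝ), 1 ≤ N ∧ 0 < δ ∧ δ ≤ η ∧ pd κ ι' a ((π p).1, (π p).2) < η ∧
        pd κ ι' b ((π p).1, y₀) < η ∧ pd κ ι' (S^[N] a) b < ε * δ ^ k ∧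
        pd κ ι' (S^[N] b) a < ε * δ ^ k ∧
        ∀ j, 0 < j → j < N → δ ≤ pd κ ι' (S^[j] a) a ∧ δ ≤ pd κ ι' (S^[j] a) b ∧
          δ ≤ pd κ ι' (S^[j] b) a ∧ δ ≤ pd κ ι' (S^[j] b) b) → Closable I₀ F p := by
    intro y₀ hxy hex
    refine closable_of_exchange_on hι hr F (append_injective hκi hιi') hK h' p hpK ((π p).1, y₀)
      (fun h => hxy (congrArg Prod.snd h)) fun k hk ε η hε hη => ?_
    obtain ⟨a, b, N, δ, c1, c2, c3, c4, c5, c6, c7, c8⟩ := hex k hk ε η hε hη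
    simp only [norm_append_sub]
    exact ⟨a, b, N, δ, c1, c2, c3, c4, c5, c6, c7, c8⟩
  rcases hmix with ⟨⟨m, hm, hz⟩, l, C, θ, h0, h1, hmix⟩ | ⟨hz, d, C₁, hd, hball, hmix⟩
  · have hl' : ∀ w w' : Z × X, pd κ ι' (S w) (S w') ≤ Λ * pd κ ι' w w' := by
      intro w w'
      have h2 := hl w w'
      rwa [norm_append_sub, norm_append_sub] at h2
    rcases skew_exchange_per hκi hι' hιi' S hSc g hg ⟨Λ, hΛ, hl'⟩ ν hinv h0 h1 (π p).1 hmix hm hz
      (π p).2 hx with h2 | ⟨y₀, hxy, hex⟩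
    · exact h'.closable_periodic F hpK h2
    · exact key y₀ hxy fun k _ ε η hε hη => hex k ε η hε hη
  · obtain ⟨y₀, hxy, hex⟩ := skew_exchange hκ hι' hιi' hr S hSc g hg ⟨Λ, by linarith, hl⟩ ν hinv hd
      hball (π p).1 hmix hz (π p).2 hx
    exact key y₀ hxy hex

end Pool.Agent.XP
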