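import Pool.Agent.Lib.MP_1e8d1a_an.XP.Defs

/-! Skew products with mixing fibres: definitions for the statement. -/

open scoped Topology
open MeasureTheory

namespace Pool.Agent.XP

/-- Every ball of radius `ρ ≤ η` centred near `z₀` contains at most `K (ρ / s)^e` points with mutual
distances at least `s`. -/
def DimAt {Z : Type} {D : ℕ} (κ : Z → Fin D → ℝ) (z₀ : Z) (e : ℝ) : Prop :=
  ∃ K η : ℝ, 1 ≤ K ∧ 0 < η ∧ ∀ z : Z, ‖κ z - κ z₀‖ < η → ∀ (T : Finset ℕ) (c : ℕ → Z) (ρ s : ℝ),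
    0 < s → s ≤ ρ → ρ ≤ η → (∀ i ∈ T, ‖κ (c i) - κ z‖ ≤ ρ) →
    (∀ i ∈ T, ∀ j ∈ T, i ≠ j → s ≤ ‖κ (c i) - κ (c j)‖) → (T.card : ℝ) ≤ K * (ρ / s) ^ e

variable {Z X : Type} [MeasurableSpace X] {D D' : ℕ}

/-- The products `fib S n z` of the fibre maps that start over `z` mix the `C^l` functions
exponentially. -/
def ExpMixing (ι : X → Fin D' → ℝ) (S : Z × X → Z × X) (ν : Measure X) (z : Z) : Prop :=
  ∃ (l : ℕ) (C θ : ℝ), 0 < θ ∧ θ < 1 ∧ ∀ n : ℕ, MixMap ι l (fib S n z) ν (C * θ ^ n)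

/-- All balls of radius `ρ ≤ 1` have measure at most `C₁ ρ^d`, and for all natural numbers
`1 ≤ k ≤ r` all products of the fibre maps mix the `C^l` functions with a rate `C (n + 1)^(-τ)`, where
`τ d > D' + 2 l + d` and `τ (d - (k - 1) e) > k (2 D' + 2 l)` and `e` is a dimension of the base near `z`
as in `DimAt`.  (If the rate is exponential such a `τ` exists if and only if `d > (k - 1) e`.) -/
def PowerMixing (r : ℕ∞) (κ : Z → Fin D → ℝ) (ι : X → Fin D' → ℝ) (S : Z × X → Z × X)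
    (ν : Measure X) (z : Z) : Prop :=
  ∃ d C₁ : ℝ, 0 < d ∧
    (∀ (x : X) (ρ : ℝ), 0 < ρ → ρ ≤ 1 → ν.real {y | ‖ι y - ι x‖ < ρ} ≤ C₁ * ρ ^ d) ∧
    ∀ k : ℕ, 1 ≤ k → (k : ℕ∞) ≤ r → ∃ (e : ℝ) (l : ℕ) (C τ : ℝ), DimAt κ z e ∧
      D' + 2 * l + d < τ * d ∧ (k * (2 * D' + 2 * l) : ℝ) < τ * (d - ((k : ℝ) - 1) * e) ∧
      ∀ (z' : Z) (n : ℕ), MixMap ι l (fib S n z') ν (C * ((n : ℝ) + 1) ^ (-τ))

/-- `S (z, x) = (g z, f_z x)` is a skew product over a map `g` of `Z`; all `f_z` preserve a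
probability measure `ν` with `q.2` in the support; either (a) `q.1` is periodic for `g` and the products
of the fibre maps over its orbit mix exponentially, or (b) `q.1` is nonwandering for `g` and
`PowerMixing` holds. -/
def MixingAt (r : ℕ∞) [TopologicalSpace Z] [TopologicalSpace X] (κ : Z → Fin D → ℝ)
    (ι : X → Fin D' → ℝ) (S : Z × X → Z × X) (q : Z × X) : Prop :=
  ∃ (g : Z → Z) (ν : Measure X), (∀ v, (S v).1 = g v.1) ∧ IsProbabilityMeasure ν ∧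
    (∀ z, MeasurePreserving (fun x => (S (z, x)).2) ν ν) ∧ (∀ O ∈ 𝓝 q.2, 0 < ν O) ∧
    ((∃ m : ℕ, 0 < m ∧ g^[m] q.1 = q.1) ∧ ExpMixing ι S ν q.1 ∨
      (∀ O ∈ 𝓝 q.1, ∃ n : ℕ, 0 < n ∧ ∃ z ∈ O, g^[n] z ∈ O) ∧ PowerMixing r κ ι S ν q.1)

end Pool.Agent.XP
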