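import Pool.Agent.Lib.MP_1e8d1a_an.XP.SymKDefs
import Pool.Agent.Lib.MP_1e8d1a_an.XM.Sym4

/-! Extensions by compact connected groups of symmetries over a closed invariant set: the lift of an
exchange of two points, and points which are periodic up to symmetries. -/

open scoped ContDiff Manifold Topology
open Filter

namespace Pool.Agent.XP

open Pool.Agent.SC
open Pool.Agent.XM (exists_symPert)

variable {E : Type} [NormedAddCommGroup E] [NormedSpace ℝ E]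
  {H : Type} [TopologicalSpace H] {I : ModelWithCorners ℝ E H}
  {W : Type} [TopologicalSpace W] [ChartedSpace H W]
  {P : Type} [NormedAddCommGroup P] [NormedSpace ℝ P]

variable (I) in
/-- `F` is an extension of `Φ` over the invariant set `K`. -/
structure LipExtOn (r : ℕ∞) {D D' : ℕ} (K : Set W) (ι : W → Fin D → ℝ) (F : W → W) {X : Type}
    (κ : X → Fin D' → ℝ) (Φ : X → X) (π : W → X) (ψ : P × W → W) (R L : ℝ) : Prop where
  sym : SymmetryFamily I r F ψ R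
  maps : ∀ x ∈ K, F x ∈ K
  smaps : ∀ v, ∀ x ∈ K, ψ (v, x) ∈ K
  semi : ∀ x ∈ K, π (F x) = Φ (π x)
  inv : ∀ v, ∀ x ∈ K, π (ψ (v, x)) = π x
  fib : ∀ x ∈ K, ∀ x' ∈ K, π x = π x' → ∃ v, ψ (v, x) = x'
  lip : ∀ x ∈ K, ∀ x' ∈ K, ‖κ (π x) - κ (π x')‖ ≤ L * ‖ι x - ι x'‖
  lift : ∀ x ∈ K, ∀ a, ∃ x' ∈ K, π x' = a ∧ ‖ι x' - ι x‖ ≤ L * ‖κ a - κ (π x)‖
  equi : ∀ v x x', ‖ι (ψ (v, x)) - ι (ψ (v, x'))‖ ≤ L * ‖ι x - ι x'‖

variable {X : Type} {D D' : ℕ} {K : Set W} {ι : W → Fin D → ℝ} {κ : X → Fin D' → ℝ} {Φ : X → X}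
  {π : W → X} {ψ : P × W → W} {R L : ℝ}

theorem LipExtOn.mono {r : ℕ∞} {F : W → W} (h : LipExtOn I r K ι F κ Φ π ψ R L) {L' : ℝ}
    (hL : L ≤ L') : LipExtOn I r K ι F κ Φ π ψ R L' where
  sym := h.sym
  maps := h.maps
  smaps := h.smaps
  semi := h.semi
  inv := h.inv
  fib := h.fib
  lip x hx x' hx' := (h.lip x hx x' hx').trans (mul_le_mul_of_nonneg_right hL (norm_nonneg _))
  lift x hx a := by
    obtain ⟨x', h0, h1, h2⟩ := h.lift x hx a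
    exact ⟨x', h0, h1, h2.trans (mul_le_mul_of_nonneg_right hL (norm_nonneg _))⟩
  equi v x x' := (h.equi v x x').trans (mul_le_mul_of_nonneg_right hL (norm_nonneg _))

theorem LipExtOn.iter_mem {r : ℕ∞} {F : W → W} (h : LipExtOn I r K ι F κ Φ π ψ R L) (n : ℕ) {x : W}
    (hx : x ∈ K) : F^[n] x ∈ K := by
  induction n with
  | zero => exact hx
  | succ n ih =>
    rw [Function.iterate_succ_apply']
    exact h.maps _ ih

theorem LipExtOn.iter {r : ℕ∞} {F : W → W} (h : LipExtOn I r K ι F κ Φ π ψ R L) (n : ℕ) {x : W}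
    (hx : x ∈ K) : π (F^[n] x) = Φ^[n] (π x) := by
  induction n with
  | zero => rfl
  | succ n ih =>
    rw [Function.iterate_succ_apply', Function.iterate_succ_apply', h.semi _ (h.iter_mem n hx), ih]

/-- **The lift of an exchange of two points.** -/
theorem LipExtOn.exchange {r : ℕ∞} (F : W ≃ₘ^r⟮I, I⟯ W) (h : LipExtOn I r K ι F κ Φ π ψ R L)
    (hL : 1 ≤ L) {p : W} (hp : p ∈ K) (a b : X) (N : ℕ) (hN : 1 ≤ N) (e : ℝ)
    (h1 : ‖κ (Φ^[N] a) - κ b‖ < e) (h2 : ‖κ (Φ^[N] b) - κ a‖ < e) :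
    ∃ (t : P) (G : W ≃ₘ^r⟮I, I⟯ W) (x y : W), x ∈ K ∧ y ∈ K ∧ ‖t‖ ≤ R / N ∧
      (∀ z, G z = ψ (t, F z)) ∧
      π x = a ∧ π y = b ∧ ‖ι x - ι p‖ ≤ L * ‖κ a - κ (π p)‖ ∧
      ‖ι ((G : W → W)^[N] x) - ι y‖ < L * (L * e) ∧
      ‖ι ((G : W → W)^[N] y) - ι x‖ < L * (L * e) ∧
      ∀ j, ∀ z ∈ K, (G : W → W)^[j] z ∈ K ∧ π ((G : W → W)^[j] z) = Φ^[j] (π z) := by
  have hL0 : 0 < L := by linarith
  have hcomm : ∀ n v x, (F : W → W)^[n] (ψ (v, x)) = ψ (v, (F : W → W)^[n] x) := by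
    intro n v
    induction n with
    | zero => intro x; rfl
    | succ n ih =>
      intro x
      rw [Function.iterate_succ_apply', Function.iterate_succ_apply', ih, h.sym.comm]
  obtain ⟨x, hxK, hx, hxp⟩ := h.lift p hp a
  obtain ⟨y₀, hy₀K, hy₀, hy₀x⟩ := h.lift ((F : W → W)^[N] x) (h.iter_mem N hxK) b
  obtain ⟨z, hzK, hz, hzx⟩ := h.lift x hxK (Φ^[N] b)
  rw [h.iter N hxK, hx] at hy₀x
  rw [hx] at hzx
  have h3 : π ((F : W → W)^[N] y₀) = π z := by rw [h.iter N hy₀K, hy₀, hz]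
  obtain ⟨u₀, hu₀⟩ := h.fib _ (h.iter_mem N hy₀K) _ hzK h3
  obtain ⟨u, huR, hu⟩ := h.sym.bound u₀
  rw [hu] at hu₀
  have hN0 : (0 : ℝ) < N := by exact_mod_cast hN
  obtain ⟨t, ht⟩ : ∃ t : P, t = (1 / (2 * (N : ℝ))) • u := ⟨_, rfl⟩
  obtain ⟨G, hG, hGi⟩ := exists_symPert F h.sym t
  have htN : (N : ℝ) • t = (1 / 2 : ℝ) • u := by
    rw [ht, smul_smul]
    congr 1
    field_simp
  have hsum : ∀ w, ψ ((1 / 2 : ℝ) • u, ψ ((1 / 2 : ℝ) • u, w)) = ψ (u, w) := by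
    intro w
    have h4 := h.sym.add (1 / 2) (1 / 2) u w
    rw [← h4]
    norm_num
  refine ⟨t, G, x, ψ ((1 / 2 : ℝ) • u, y₀), hxK, h.smaps _ _ hy₀K, ?_, hG, hx, ?_, hxp, ?_, ?_, ?_⟩
  · have hR0 : 0 ≤ R := (norm_nonneg u).trans huR
    rw [ht, norm_smul, Real.norm_eq_abs, abs_of_pos (by positivity), one_div_mul_eq_div,
      div_le_div_iff₀ (by positivity) hN0]
    nlinarith
  · rw [h.inv _ _ hy₀K, hy₀]
  · rw [hGi, htN]
    refine (h.equi _ _ _).trans_lt (mul_lt_mul_of_pos_left ?_ hL0)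
    rw [norm_sub_rev]
    refine hy₀x.trans_lt (mul_lt_mul_of_pos_left ?_ hL0)
    rw [norm_sub_rev]
    exact h1
  · rw [hGi, htN, hcomm, hsum, hu₀]
    have he : 0 < L * e := mul_pos hL0 ((norm_nonneg _).trans_lt h1)
    refine (hzx.trans_lt (mul_lt_mul_of_pos_left h2 hL0)).trans_le ?_
    exact le_mul_of_one_le_left he.le hL
  · intro j w hw
    rw [hGi]
    exact ⟨h.smaps _ _ (h.iter_mem j hw), by rw [h.inv _ _ (h.iter_mem j hw), h.iter j hw]⟩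

/-- A point which is periodic up to symmetries can be closed. -/
theorem LipExtOn.closable_periodic [FiniteDimensional ℝ E] [IsManifold I ∞ W] [I.Boundaryless]
    {r : ℕ∞} (F : W ≃ₘ^r⟮I, I⟯ W) (h : LipExtOn I r K ι F κ Φ π ψ R L) {p : W} (hpK : p ∈ K)
    (hp : ∃ m : ℕ, 0 < m ∧ Φ^[m] (π p) = π p) : Closable I F p := by
  intro U hU
  have hfst : ContMDiff (𝓘(ℝ, P).prod I) 𝓘(ℝ, P) r (fun x : P × W => x.1) := contMDiff_fst
  have hA : ContMDiff (𝓘(ℝ, P).prod I) I r (fun x : P × W => ψ (x.1, F x.2)) :=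
    h.sym.smooth.comp (hfst.prodMk (F.contMDiff.comp contMDiff_snd))
  have hev := mem_nhds_of_family (fun x : P × W => ψ (x.1, F x.2)) 0 (fun q => hA.contMDiffAt) F
    (fun q => (h.sym.zero _).symm) U hU
  rw [Metric.eventually_nhds_iff] at hev
  obtain ⟨ε, hε, hev⟩ := hev
  obtain ⟨m, hm, hmp⟩ := hp
  obtain ⟨j, hj⟩ := exists_nat_gt (R / ε)
  obtain ⟨n, hn⟩ : ∃ n : ℕ, n = m * (j + 1) := ⟨_, rfl⟩
  have hn0 : 0 < n := by rw [hn]; exact Nat.mul_pos hm (Nat.succ_pos j)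
  have hjn : j ≤ n := by
    rw [hn]
    calc j ≤ 1 * (j + 1) := by omega
      _ ≤ m * (j + 1) := Nat.mul_le_mul_right _ hm
  have hnp : Φ^[n] (π p) = π p := by
    have h4 : Function.IsPeriodicPt Φ m (π p) := hmp
    rw [hn]
    exact h4.mul_const (j + 1)
  obtain ⟨u₀, hu₀⟩ := h.fib ((F : W → W)^[n] p) (h.iter_mem n hpK) p hpK (by rw [h.iter n hpK, hnp])
  obtain ⟨u, huR, hu⟩ := h.sym.bound u₀
  rw [hu] at hu₀
  have hn0' : (0 : ℝ) < n := by exact_mod_cast hn0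
  obtain ⟨t, ht⟩ : ∃ t : P, t = (1 / (n : ℝ)) • u := ⟨_, rfl⟩
  obtain ⟨G, hG, hGi⟩ := exists_symPert F h.sym t
  refine ⟨G, hev (y := t) ?_ G hG, n, hn0, ?_⟩
  · rw [dist_zero_right, ht, norm_smul, Real.norm_eq_abs, abs_of_pos (by positivity),
      one_div_mul_eq_div, div_lt_iff₀ hn0']
    have h5 : R / ε < n := hj.trans_le (by exact_mod_cast hjn)
    rw [div_lt_iff₀ hε] at h5
    linarith
  · rw [hGi, ht, smul_smul, mul_one_div_cancel hn0'.ne', one_smul, hu₀]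

end Pool.Agent.XP
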