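import Pool.Agent.Lib.MP_1e8d1a_an.XP.SymK1

/-! Extensions by compact connected groups of symmetries over a closed invariant set: closing, if two
points of the base can be nearly exchanged. -/

open scoped ContDiff Manifold Topology
open Filter MeasureTheory

namespace Pool.Agent.XP

open Pool.Agent.SC
open Pool.Agent.XM (IsEmb closable_of_exchange_family)

variable {E : Type} [NormedAddCommGroup E] [NormedSpace ℝ E] {H : Type} [TopologicalSpace H]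
  {I : ModelWithCorners ℝ E H} {W : Type} [TopologicalSpace W] [ChartedSpace H W]
  {P : Type} [NormedAddCommGroup P] [NormedSpace ℝ P] {X : Type} {D D' : ℕ} {K : Set W}
  {ι : W → Fin D → ℝ} {κ : X → Fin D' → ℝ} {Φ : X → X} {π : W → X} {ψ : P × W → W} {R L : ℝ}

theorem LipExtOn.continuousOn {r : ℕ∞} {F : W → W} (h : LipExtOn I r K ι F κ Φ π ψ R L)
    (hι : Continuous ι) : ContinuousOn (fun x => κ (π x)) K := by
  intro x hx
  rw [ContinuousWithinAt, tendsto_iff_norm_sub_tendsto_zero]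
  have h1 : Tendsto (fun y => L * ‖ι y - ι x‖) (𝓝[K] x) (𝓝 (L * ‖ι x - ι x‖)) :=
    (((hι.sub continuous_const).norm.const_mul L).tendsto x).mono_left nhdsWithin_le_nhds
  rw [sub_self, norm_zero, mul_zero] at h1
  refine squeeze_zero' (Eventually.of_forall fun _ => norm_nonneg _) ?_ h1
  filter_upwards [self_mem_nhdsWithin] with y hy
  exact h.lip y hy x hx

/-- Exchanges near `π p` at bounded times: `π p` is periodic. -/
theorem LipExtOn.times [CompactSpace W] {r : ℕ∞} {F : W → W}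
    (h : LipExtOn I r K ι F κ Φ π ψ R L) (hK : IsClosed K)
    (hι : Continuous ι) (hF : Continuous F) (hκ : Function.Injective κ) {p : W} (hpK : p ∈ K)
    (hp : ¬ ∃ m : ℕ, 0 < m ∧ Φ^[m] (π p) = π p) (N₀ : ℕ) :
    ∃ c : ℝ, 0 < c ∧ ∀ N : ℕ, 1 ≤ N → N ≤ N₀ → ∀ x ∈ K, ∀ y ∈ K,
      c ≤ ‖κ (Φ^[N] (π x)) - κ (π y)‖ + ‖κ (Φ^[N] (π y)) - κ (π x)‖ + ‖κ (π x) - κ (π p)‖ := by
  have hc := h.continuousOn hι
  have one : ∀ N : ℕ, 1 ≤ N → ∃ c : ℝ, 0 < c ∧ ∀ x ∈ K, ∀ y ∈ K,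
      c ≤ ‖κ (Φ^[N] (π x)) - κ (π y)‖ + ‖κ (Φ^[N] (π y)) - κ (π x)‖ + ‖κ (π x) - κ (π p)‖ := by
    intro N hN
    obtain ⟨g, hg⟩ : ∃ g : W × W → ℝ, g = fun z => ‖κ (Φ^[N] (π z.1)) - κ (π z.2)‖ +
      ‖κ (Φ^[N] (π z.2)) - κ (π z.1)‖ + ‖κ (π z.1) - κ (π p)‖ := ⟨_, rfl⟩
    have hFN : ContinuousOn (fun x => κ (Φ^[N] (π x))) K := by
      have h1 : ContinuousOn (fun x => κ (π (F^[N] x))) K :=
        hc.comp (hF.iterate N).continuousOn fun x hx => h.iter_mem N hx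
      exact h1.congr fun x hx => congrArg κ (h.iter N hx).symm
    have m1 : Set.MapsTo (Prod.fst : W × W → W) (K ×ˢ K) K := fun z hz => hz.1
    have m2 : Set.MapsTo (Prod.snd : W × W → W) (K ×ˢ K) K := fun z hz => hz.2
    have hgc : ContinuousOn g (K ×ˢ K) := by
      rw [hg]
      exact (((hFN.comp continuousOn_fst m1).sub (hc.comp continuousOn_snd m2)).norm.add
        ((hFN.comp continuousOn_snd m2).sub (hc.comp continuousOn_fst m1)).norm).add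
        ((hc.comp continuousOn_fst m1).sub continuousOn_const).norm
    have hcomp : IsCompact (K ×ˢ K) := hK.isCompact.prod hK.isCompact
    obtain ⟨z, hzK, hz⟩ := hcomp.exists_isMinOn ⟨(p, p), ⟨hpK, hpK⟩⟩ hgc
    refine ⟨g z, ?_, fun x hx y hy => ?_⟩
    · have h0 : 0 ≤ g z := by
        rw [hg]
        positivity
      rcases h0.lt_or_eq with h1 | h1
      · exact h1
      · exfalso
        rw [hg] at h1
        simp only at h1
        have n1 := norm_nonneg (κ (Φ^[N] (π z.1)) - κ (π z.2))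
        have n2 := norm_nonneg (κ (Φ^[N] (π z.2)) - κ (π z.1))
        have n3 := norm_nonneg (κ (π z.1) - κ (π p))
        have e1 : κ (Φ^[N] (π z.1)) = κ (π z.2) := by
          rw [← sub_eq_zero, ← norm_eq_zero]
          linarith
        have e2 : κ (Φ^[N] (π z.2)) = κ (π z.1) := by
          rw [← sub_eq_zero, ← norm_eq_zero]
          linarith
        have e3 : κ (π z.1) = κ (π p) := by
          rw [← sub_eq_zero, ← norm_eq_zero]
          linarith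
        refine hp ⟨N + N, by omega, ?_⟩
        rw [Function.iterate_add_apply, ← hκ e3, hκ e1, hκ e2]
    · have h1 := hz (show (x, y) ∈ K ×ˢ K from ⟨hx, hy⟩)
      rw [hg] at h1 ⊢
      exact h1
  induction N₀ with
  | zero => exact ⟨1, one_pos, fun N h1 h2 => by omega⟩
  | succ N₀ ih =>
    obtain ⟨c, hc0, hc1⟩ := ih
    obtain ⟨c', hc0', hc1'⟩ := one (N₀ + 1) (by omega)
    refine ⟨min c c', lt_min hc0 hc0', fun N h1 h2 x hx y hy => ?_⟩
    rcases Nat.lt_or_ge N (N₀ + 1) with h3 | h3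
    · exact (min_le_left _ _).trans (hc1 N h1 (by omega) x hx y hy)
    · have h4 : N = N₀ + 1 := by omega
      rw [h4]
      exact (min_le_right _ _).trans (hc1' x hx y hy)

/-- **Closing for extensions by compact connected groups of symmetries**, if two points of the base
can be nearly exchanged. -/
theorem closable_of_exchange_on [FiniteDimensional ℝ E] [T2Space W] [IsManifold I ∞ W]
    [I.Boundaryless] [CompactSpace W] (hι : IsEmb I ι) {r : ℕ∞} (hr : 1 ≤ r)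
    (F : W ≃ₘ^r⟮I, I⟯ W) (hκi : Function.Injective κ) (hK : IsClosed K)
    (h' : LipExtOn I r K ι F κ Φ π ψ R L) (p : W) (hpK : p ∈ K) (c₀ : X) (hpc : π p ≠ c₀)
    (hex : ∀ k : ℕ, (k : ℕ∞) ≤ r → ∀ ε η : ℝ, 0 < ε → 0 < η →
      ∃ (a b : X) (N : ℕ) (δ : ℝ), 1 ≤ N ∧ 0 < δ ∧ δ ≤ η ∧ ‖κ a - κ (π p)‖ < η ∧
        ‖κ b - κ c₀‖ < η ∧ ‖κ (Φ^[N] a) - κ b‖ < ε * δ ^ k ∧ ‖κ (Φ^[N] b) - κ a‖ < ε * δ ^ k ∧
        ∀ j, 0 < j → j < N → δ ≤ ‖κ (Φ^[j] a) - κ a‖ ∧ δ ≤ ‖κ (Φ^[j] a) - κ b‖ ∧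
          δ ≤ ‖κ (Φ^[j] b) - κ a‖ ∧ δ ≤ ‖κ (Φ^[j] b) - κ b‖) :
    Closable I F p := by
  by_cases hper : ∃ m : ℕ, 0 < m ∧ Φ^[m] (π p) = π p
  · exact h'.closable_periodic F hpK hper
  obtain ⟨L₁, hL₁⟩ : ∃ L₁ : ℝ, L₁ = max L 1 := ⟨_, rfl⟩
  have h : LipExtOn I r K ι F κ Φ π ψ R L₁ := h'.mono (by rw [hL₁]; exact le_max_left _ _)
  have hL : 1 ≤ L₁ := by rw [hL₁]; exact le_max_right _ _
  have hL0 : 0 < L₁ := by linarith
  have hc : Continuous ι := hι.smooth.continuous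
  have hρ := h.continuousOn hc
  have hR0 : 0 ≤ R := by
    obtain ⟨v, hv, -⟩ := h.sym.bound 0
    exact (norm_nonneg v).trans hv
  obtain ⟨k, hk⟩ : ∃ k : ℕ → ℕ, ∀ n : ℕ, ((k n : ℕ) : ℕ∞) = min (n : ℕ∞) r :=
    ⟨fun n => (min (n : ℕ∞) r).toNat, fun n =>
      ENat.natCast_toNat (ne_top_of_le_ne_top (ENat.natCast_ne_top n) (min_le_left _ _))⟩
  -- the exchanges
  have ex : ∀ n : ℕ, ∃ (t : P) (G : W ≃ₘ^r⟮I, I⟯ W) (x y : W) (N : ℕ) (δ : ℝ),
      y ∈ K ∧ ‖t‖ ≤ 1 / ((n : ℝ) + 1) ∧ (∀ z, G z = ψ (t, F z)) ∧ 1 ≤ N ∧ 0 < δ ∧ δ ≤ 1 / ((n : ℝ) + 1) ∧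
      ‖ι x - ι p‖ < 1 / ((n : ℝ) + 1) ∧ ‖κ (π y) - κ c₀‖ < 1 / ((n : ℝ) + 1) ∧
      ‖ι ((G : W → W)^[N] x) - ι y‖ < 1 / ((n : ℝ) + 1) * δ ^ k n ∧
      ‖ι ((G : W → W)^[N] y) - ι x‖ < 1 / ((n : ℝ) + 1) * δ ^ k n ∧
      ∀ j, 0 < j → j < N → δ ≤ ‖ι ((G : W → W)^[j] x) - ι x‖ ∧
        δ ≤ ‖ι ((G : W → W)^[j] x) - ι y‖ ∧ δ ≤ ‖ι ((G : W → W)^[j] y) - ι x‖ ∧
        δ ≤ ‖ι ((G : W → W)^[j] y) - ι y‖ := by
    intro n
    obtain ⟨η, hη⟩ : ∃ η : ℝ, η = 1 / ((n : ℝ) + 1) := ⟨_, rfl⟩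
    have hn1 : (0 : ℝ) < (n : ℝ) + 1 := by positivity
    have hη0 : 0 < η := by rw [hη]; positivity
    rw [← hη]
    obtain ⟨c, hc0, hcN⟩ := h.times hK hc F.continuous hκi hpK hper ⌈R * ((n : ℝ) + 1)⌉₊
    obtain ⟨ε', hε'⟩ : ∃ ε' : ℝ, ε' = min (η / L₁ ^ (k n + 2)) (c / 4) := ⟨_, rfl⟩
    obtain ⟨η', hη'⟩ : ∃ η' : ℝ, η' = min (min (η / L₁) (c / 4)) 1 := ⟨_, rfl⟩
    have hε'0 : 0 < ε' := by rw [hε']; exact lt_min (by positivity) (by linarith)
    have hη'0 : 0 < η' := by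
      rw [hη']
      exact lt_min (lt_min (by positivity) (by linarith)) one_pos
    have hε'1 : ε' * L₁ ^ (k n + 2) ≤ η := by
      rw [← le_div_iff₀ (by positivity), hε']
      exact min_le_left _ _
    have hε'2 : ε' ≤ c / 4 := by rw [hε']; exact min_le_right _ _
    have hη'1 : L₁ * η' ≤ η := by
      have h1 : η' ≤ η / L₁ := by rw [hη']; exact (min_le_left _ _).trans (min_le_left _ _)
      rw [le_div_iff₀ hL0] at h1
      linarith
    have hη'2 : η' ≤ c / 4 := by rw [hη']; exact (min_le_left _ _).trans (min_le_right _ _)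
    have hη'3 : η' ≤ 1 := by rw [hη']; exact min_le_right _ _
    have hη'4 : η' ≤ η := by
      have h1 : 1 * η' ≤ L₁ * η' := mul_le_mul_of_nonneg_right hL hη'0.le
      linarith
    obtain ⟨a, b, N, δ, hN, hδ, hδη, ha, hb, hab, hba, hsep⟩ := hex (k n)
      (by rw [hk]; exact min_le_right _ _) ε' η' hε'0 hη'0
    have hδ1 : δ ≤ 1 := hδη.trans hη'3
    have hδk : δ ^ k n ≤ 1 := pow_le_one₀ hδ.le hδ1
    have hδk0 : 0 < δ ^ k n := pow_pos hδ _
    have hεδ : ε' * δ ^ k n ≤ c / 4 := by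
      calc ε' * δ ^ k n ≤ ε' * 1 := mul_le_mul_of_nonneg_left hδk hε'0.le
        _ = ε' := mul_one _
        _ ≤ c / 4 := hε'2
    obtain ⟨t, G, x, y, hxK, hyK, ht, hG, hx, hy, hxp, hxy, hyx, hπ⟩ :=
      h.exchange F hL hpK a b N hN (ε' * δ ^ k n) hab hba
    have hNbig : R * ((n : ℝ) + 1) < N := by
      by_contra hle
      push Not at hle
      have h1 : N ≤ ⌈R * ((n : ℝ) + 1)⌉₊ := by
        exact_mod_cast hle.trans (Nat.le_ceil _)
      have h2 := hcN N hN h1 x hxK y hyK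
      rw [hx, hy] at h2
      linarith
    have hN0 : (0 : ℝ) < N := by exact_mod_cast hN
    have herr : L₁ * (L₁ * (ε' * δ ^ k n)) ≤ η * (δ / L₁) ^ k n := by
      rw [div_pow, ← mul_div_assoc, le_div_iff₀ (by positivity)]
      calc L₁ * (L₁ * (ε' * δ ^ k n)) * L₁ ^ k n = (ε' * L₁ ^ (k n + 2)) * δ ^ k n := by
            rw [pow_add]
            ring
        _ ≤ η * δ ^ k n := mul_le_mul_of_nonneg_right hε'1 hδk0.le
    have sep : ∀ (j : ℕ), ∀ z ∈ K, ∀ w ∈ K, δ ≤ ‖κ (Φ^[j] (π z)) - κ (π w)‖ →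
        δ / L₁ ≤ ‖ι ((G : W → W)^[j] z) - ι w‖ := by
      intro j z hz w hw h1
      rw [div_le_iff₀ hL0, mul_comm]
      have h2 := h.lip ((G : W → W)^[j] z) (hπ j z hz).1 w hw
      rw [(hπ j z hz).2] at h2
      exact h1.trans h2
    refine ⟨t, G, x, y, N, δ / L₁, hyK, ?_, hG, hN, by positivity, ?_, ?_, ?_, hxy.trans_le herr,
      hyx.trans_le herr, fun j hj hjN => ?_⟩
    · refine ht.trans ?_
      rw [hη, div_le_div_iff₀ hN0 hn1]
      linarith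
    · have h1 : δ / L₁ ≤ δ := div_le_self hδ.le hL
      linarith
    · refine hxp.trans_lt ((mul_lt_mul_of_pos_left ha hL0).trans_le hη'1)
    · rw [hy]
      exact hb.trans_le hη'4
    · obtain ⟨s1, s2, s3, s4⟩ := hsep j hj hjN
      refine ⟨sep j x hxK x hxK ?_, sep j x hxK y hyK ?_, sep j y hyK x hxK ?_, sep j y hyK y hyK ?_⟩
      · rw [hx]; exact s1
      · rw [hx, hy]; exact s2
      · rw [hx, hy]; exact s3
      · rw [hy]; exact s4
  choose t G x y N δ eK e1 e2 e3 e4 e5 e6 e7 e8 e9 e10 using ex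
  -- a cluster point of the second points
  obtain ⟨q, hq⟩ := exists_clusterPt_of_compactSpace (map y atTop)
  have hfreq : ∀ V ∈ 𝓝 q, ∃ᶠ n in atTop, y n ∈ V := mapClusterPt_iff_frequently.1 hq
  have hsmall : ∀ η : ℝ, 0 < η → ∀ᶠ n : ℕ in atTop, 1 / ((n : ℝ) + 1) < η := by
    intro η hη
    have h1 : Tendsto (fun n : ℕ => 1 / ((n : ℝ) + 1)) atTop (𝓝 0) :=
      tendsto_one_div_add_atTop_nhds_zero_nat
    exact h1.eventually_lt_const hη
  have hqK : q ∈ K := by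
    by_contra hq
    obtain ⟨n, hn⟩ := (hfreq _ (hK.isOpen_compl.mem_nhds hq)).exists
    exact hn (eK n)
  have hπq : κ (π q) = κ c₀ := by
    by_contra hne
    have hd : 0 < ‖κ (π q) - κ c₀‖ := norm_pos_iff.2 (sub_ne_zero.2 hne)
    have hV : {w : W | w ∈ K → ‖κ (π w) - κ (π q)‖ < ‖κ (π q) - κ c₀‖ / 2} ∈ 𝓝 q := by
      have hcq : Tendsto (fun w => ‖κ (π w) - κ (π q)‖) (𝓝[K] q) (𝓝 0) := by
        have h6 := (hρ q hqK).sub (continuousWithinAt_const (b := κ (π q)))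
        have h7 := h6.norm
        rw [ContinuousWithinAt] at h7
        simpa using h7
      have h8 := hcq.eventually_lt_const (half_pos hd)
      rw [eventually_nhdsWithin_iff] at h8
      exact h8
    obtain ⟨n, h1', h2⟩ := ((hfreq _ hV).and_eventually (hsmall _ (half_pos hd))).exists
    have h1 := h1' (eK n)
    have h3 := e7 n
    have h4 : ‖κ (π (y n)) - κ (π q)‖ < ‖κ (π q) - κ c₀‖ / 2 := h1
    have h5 : κ (π q) - κ c₀ = -(κ (π (y n)) - κ (π q)) + (κ (π (y n)) - κ c₀) := by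
      abel
    have h6 : ‖κ (π q) - κ c₀‖ ≤ ‖κ (π (y n)) - κ (π q)‖ + ‖κ (π (y n)) - κ c₀‖ := by
      calc ‖κ (π q) - κ c₀‖
          = ‖-(κ (π (y n)) - κ (π q)) + (κ (π (y n)) - κ c₀)‖ := by rw [← h5]
        _ ≤ ‖-(κ (π (y n)) - κ (π q))‖ + ‖κ (π (y n)) - κ c₀‖ := norm_add_le _ _
        _ = _ := by rw [norm_neg]
    linarith
  have hpq : p ≠ q := by
    intro hpq
    exact hpc (hpq ▸ hκi hπq)
  have hfst : ContMDiff (𝓘(ℝ, P).prod I) 𝓘(ℝ, P) r (fun x : P × W => x.1) := contMDiff_fst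
  have hA : ContMDiff (𝓘(ℝ, P).prod I) I r (fun x : P × W => ψ (x.1, F x.2)) :=
    h.sym.smooth.comp (hfst.prodMk (F.contMDiff.comp contMDiff_snd))
  refine closable_of_exchange_family hι hr F (fun x : P × W => ψ (x.1, F x.2)) hA
    (fun z => (h.sym.zero _).symm) p q hpq fun k₀ ε η hk₀ hε hη => ?_
  have hV : {w : W | ‖ι w - ι q‖ < η} ∈ 𝓝 q := by
    refine (isOpen_lt ((hc.sub continuous_const).norm) continuous_const).mem_nhds ?_
    show ‖ι q - ι q‖ < η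
    rw [sub_self, norm_zero]
    exact hη
  obtain ⟨n, h1, h2, h3⟩ := ((hfreq _ hV).and_eventually
    ((hsmall _ (lt_min hε hη)).and (eventually_ge_atTop k₀))).exists
  have h4 : 1 / ((n : ℝ) + 1) ≤ ε := (h2.trans_le (min_le_left _ _)).le
  have h5 : 1 / ((n : ℝ) + 1) ≤ η := (h2.trans_le (min_le_right _ _)).le
  have hkn : k₀ ≤ k n := by
    have h6 : (k₀ : ℕ∞) ≤ (k n : ℕ∞) := by
      rw [hk]
      exact le_min (by exact_mod_cast h3) hk₀
    exact_mod_cast h6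
  have hn1 : (1 : ℝ) / ((n : ℝ) + 1) ≤ 1 := by
    rw [div_le_one (by positivity)]
    have : (0 : ℝ) ≤ n := Nat.cast_nonneg n
    linarith
  have hδn : δ n ^ k n ≤ δ n ^ k₀ := pow_le_pow_of_le_one (e4 n).le ((e5 n).trans hn1) hkn
  have herr : 1 / ((n : ℝ) + 1) * δ n ^ k n ≤ ε * δ n ^ k₀ :=
    mul_le_mul h4 hδn (pow_pos (e4 n) _).le hε.le
  exact ⟨t n, G n, x n, y n, N n, δ n, (e1 n).trans h5, e2 n, e3 n, e4 n, (e5 n).trans h5,
    (e6 n).trans_le h5, h1, (e8 n).trans_le herr, (e9 n).trans_le herr, e10 n⟩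


end Pool.Agent.XP
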