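import Pool.Agent.Lib.MP_1e8d1a_an.IR.Defs
import Pool.Agent.Lib.MP_1e8d1a_an.XM.Defs

/-! Extensions by a compact connected group of symmetries over a closed invariant set: definition for
the statement. -/

open scoped ContDiff Manifold Topology

namespace Pool.Agent.XP

open Pool.Agent.SC

variable {E : Type} [NormedAddCommGroup E] [NormedSpace ℝ E] {H : Type} [TopologicalSpace H]
  (I : ModelWithCorners ℝ E H) {W : Type} [TopologicalSpace W] [ChartedSpace H W]

/-- On the invariant set `K` of `W`, `F` is an extension of `Φ` by a compact connected group of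
symmetries of class `C^r`: `π F = Φ π` on `K` and the fibres of `π : K → X` are the orbits of a family
of symmetries of `F` (finite dimensional parameter), where `π` is a Lipschitz quotient map for the
distances `‖ι x - ι y‖` of `K` and `‖κ a - κ b‖` of `X`: it is Lipschitz, and every `x` has a point
over `a` at a distance at most `L` times that of `π x` and `a`. (Only the values of `π` on `K` matter.
No symmetries: `π` is a bi-Lipschitz map of `K` onto `X`, e.g. `X = K`, `π = id`, `Φ = F`.) -/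
def SymExt (r : ℕ∞) {D D' : ℕ} (K : Set W) (ι : W → Fin D → ℝ) (F : W → W) {X : Type}
    (κ : X → Fin D' → ℝ) (Φ : X → X) (π : W → X) : Prop :=
  (∀ x ∈ K, F x ∈ K ∧ π (F x) = Φ (π x)) ∧
    (∃ L : ℝ, (∀ x ∈ K, ∀ x' ∈ K, ‖κ (π x) - κ (π x')‖ ≤ L * ‖ι x - ι x'‖) ∧
      ∀ x ∈ K, ∀ a, ∃ x' ∈ K, π x' = a ∧ ‖ι x' - ι x‖ ≤ L * ‖κ a - κ (π x)‖) ∧
    ∃ (P : Type) (_ : NormedAddCommGroup P) (_ : NormedSpace ℝ P) (_ : FiniteDimensional ℝ P)
      (ψ : P × W → W) (R : ℝ), SymmetryFamily I r F ψ R ∧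
      (∀ v, ∀ x ∈ K, ψ (v, x) ∈ K ∧ π (ψ (v, x)) = π x) ∧
      ∀ x ∈ K, ∀ x' ∈ K, π x = π x' → ∃ v, ψ (v, x) = x'

end Pool.Agent.XP
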