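import Pool.Agent.Lib.MP_1e8d1a_an.XP.Defs
import Pool.Agent.Lib.MP_1e8d1a_an.XN.B4
import Pool.Agent.Lib.MP_1e8d1a_an.XN.B6
import Pool.Agent.Lib.MP_1e8d1a_an.XM.P2

/-! The maps between the fibres of a skew product; the measure of the returns in the fibres. -/

open MeasureTheory Set Filter Topology

set_option linter.unusedSectionVars false

namespace Pool.Agent.XP

open Pool.Agent.XM (bset bset_measurable ret ret_subset)
open Pool.Agent.XN (BMix chi_smB SmB)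

section

variable {Z X : Type} {F : Z × X → Z × X} {g : Z → Z}

theorem fst_iter (hg : ∀ w, (F w).1 = g w.1) (n : ℕ) (w : Z × X) : (F^[n] w).1 = g^[n] w.1 := by
  induction n with
  | zero => rfl
  | succ n ih => rw [Function.iterate_succ_apply', Function.iterate_succ_apply', hg, ih]

theorem iter_eq (hg : ∀ w, (F w).1 = g w.1) (n : ℕ) (z : Z) (x : X) :
    F^[n] (z, x) = (g^[n] z, fib F n z x) :=
  Prod.ext (fst_iter hg n (z, x)) rfl

theorem fib_add (hg : ∀ w, (F w).1 = g w.1) (i j : ℕ) (z : Z) (x : X) :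
    fib F (i + j) z x = fib F i (g^[j] z) (fib F j z x) := by
  show (F^[i + j] (z, x)).2 = _
  rw [Function.iterate_add_apply, iter_eq hg j z x]
  rfl

theorem fib_succ (hg : ∀ w, (F w).1 = g w.1) (n : ℕ) (z : Z) (x : X) :
    fib F (n + 1) z x = (F (g^[n] z, fib F n z x)).2 := by
  show (F^[n + 1] (z, x)).2 = _
  rw [← iter_eq hg n z x, ← Function.iterate_succ_apply' F]

variable [TopologicalSpace Z] [TopologicalSpace X]

theorem fib_continuous (hF : Continuous F) (n : ℕ) (z : Z) : Continuous (fib F n z) :=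
  continuous_snd.comp ((hF.iterate n).comp (Continuous.prodMk_right z))

theorem fib_mp [MeasurableSpace X] {ν : Measure X} (hg : ∀ w, (F w).1 = g w.1)
    (hν : ∀ z, MeasurePreserving (fun x => (F (z, x)).2) ν ν) (n : ℕ) (z : Z) :
    MeasurePreserving (fib F n z) ν ν := by
  induction n with
  | zero => exact MeasurePreserving.id ν
  | succ n ih =>
    have h1 : fib F (n + 1) z = (fun x => (F (g^[n] z, x)).2) ∘ fib F n z := by
      funext x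
      exact fib_succ hg n z x
    rw [h1]
    exact (hν _).comp ih

end

theorem MixMap.bMix {X : Type} {D : ℕ} [MeasurableSpace X] {ι : X → Fin D → ℝ} {l : ℕ}
    {T : X → X} {ν : Measure X} {c B : ℝ}
    (hB : ∀ {M : Type} (ι : M → Fin D → ℝ) (y : Fin D → ℝ) {ρ : ℝ}, 0 < ρ → ρ ≤ 1 →
      SmB ι l (B * (1 / ρ) ^ l) (Pool.Agent.XN.chi ι y ρ)) (h : MixMap ι l T ν c) :
    BMix ι l T ν 1 (B ^ 2 * c) := by
  have h1 : Pool.Agent.XN.MixAt ι l T ν 1 c := by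
    intro u v K L hu hv
    rw [Function.iterate_one]
    exact h u v K L hu hv
  exact h1.bMix hB

/-- The standing assumptions for skew products `F (z, x) = (g z, f_z x)` over an arbitrary map `g`:
the fibre maps preserve the measure `ν`, their compositions mix with the rate
`C₀ (n + 1)^(-γ (D₂ + 2 l + d))`, the measure of balls of radius `ρ` is at most `C₁ ρ^d`. The distance
of `Z × X` is the maximum of those of `Z` and `X`. -/
structure Skew {Z X : Type} [TopologicalSpace Z] [TopologicalSpace X] [MeasurableSpace X]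
    {D₁ D₂ D₃ : ℕ} (ιZ : Z → Fin D₁ → ℝ) (ιX : X → Fin D₂ → ℝ) (ιW : Z × X → Fin D₃ → ℝ)
    (F : Z × X → Z × X) (g : Z → Z) (ν : Measure X) (l : ℕ) (C₀ γ Λ R C₁ d : ℝ) : Prop where
  contZ : Continuous ιZ
  contX : Continuous ιX
  contF : Continuous F
  fst : ∀ w, (F w).1 = g w.1
  C₀_nonneg : 0 ≤ C₀
  γ_pos : 0 < γ
  one_le_Λ : 1 ≤ Λ
  R_nonneg : 0 ≤ R
  bound : ∀ x, ‖ιX x‖ ≤ R
  dist_max : ∀ w w', ‖ιW w - ιW w'‖ = max ‖ιZ w.1 - ιZ w'.1‖ ‖ιX w.2 - ιX w'.2‖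
  lip : ∀ w w', ‖ιW (F w) - ιW (F w')‖ ≤ Λ * ‖ιW w - ιW w'‖
  inv : ∀ z, MeasurePreserving (fun x => (F (z, x)).2) ν ν
  mix : ∀ z n, BMix ιX l (fib F n z) ν 1 (C₀ * ((n : ℝ) + 1) ^ (-(γ * (D₂ + 2 * l + d))))
  C₁_nonneg : 0 ≤ C₁
  d_pos : 0 < d
  γd : 1 < γ * d
  ball : ∀ (y : Fin D₂ → ℝ) (ρ : ℝ), 0 < ρ → ρ ≤ 1 → ν.real (bset ιX y ρ) ≤ C₁ * ρ ^ d

variable {Z X : Type} [TopologicalSpace Z] [TopologicalSpace X] [MeasurableSpace X] [BorelSpace X]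
  {D₁ D₂ D₃ : ℕ} {ιZ : Z → Fin D₁ → ℝ} {ιX : X → Fin D₂ → ℝ} {ιW : Z × X → Fin D₃ → ℝ}
  {F : Z × X → Z × X} {g : Z → Z} {ν : Measure X} [IsProbabilityMeasure ν] {l : ℕ}
  {C₀ γ Λ R C₁ d : ℝ}

/-- The measure of the returns at the time `i`. -/
theorem Skew.ret_one (h : Skew ιZ ιX ιW F g ν l C₀ γ Λ R C₁ d) {i : ℕ} (hi : 1 ≤ i) {v : ℝ}
    (hv : (i : ℝ) ^ (-γ) ≤ v) (hv1 : v ≤ 1 / 4) (ζ : Z) :
    ν.real {x | ‖ιX (fib F i ζ x) - ιX x‖ < v} ≤
      (2 ^ D₂ * C₁ * 4 ^ d + (R + 1) ^ D₂ * C₀) * v ^ d := by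
  have hiR : (1 : ℝ) ≤ i := by exact_mod_cast hi
  have hi0 : (0 : ℝ) < i := by linarith
  have hd := h.d_pos
  have hγ := h.γ_pos
  have hv0 : 0 < v := lt_of_lt_of_le (Real.rpow_pos_of_pos hi0 _) hv
  have h1 := (h.mix ζ i).ret_le h.contX (fib_continuous h.contF i ζ) h.R_nonneg h.bound hv0
    (by linarith) (κ := C₁ * (4 * v) ^ d) (fun y => h.ball y (4 * v) (by linarith) (by linarith))
  have h2 : C₀ * ((i : ℝ) + 1) ^ (-(γ * (D₂ + 2 * l + d))) ≤ C₀ * (v ^ D₂ * v ^ (2 * l) * v ^ d) := by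
    refine mul_le_mul_of_nonneg_left ?_ h.C₀_nonneg
    have h3 : ((i : ℝ) + 1) ^ (-(γ * (D₂ + 2 * l + d))) ≤ (i : ℝ) ^ (-(γ * (D₂ + 2 * l + d))) :=
      Real.rpow_le_rpow_of_nonpos hi0 (by linarith) (by
        have : 0 ≤ γ * (D₂ + 2 * l + d) := by positivity
        linarith)
    have h4 : (i : ℝ) ^ (-(γ * (D₂ + 2 * l + d))) = ((i : ℝ) ^ (-γ)) ^ ((D₂ : ℝ) + 2 * l + d) := by
      rw [← Real.rpow_mul hi0.le]
      congr 1
      ring
    have h5 : v ^ D₂ * v ^ (2 * l) * v ^ d = v ^ ((D₂ : ℝ) + 2 * l + d) := by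
      rw [Real.rpow_add hv0, Real.rpow_add hv0, Real.rpow_natCast]
      congr 2
      rw [← Real.rpow_natCast v (2 * l)]
      push_cast
      rfl
    rw [h5]
    refine h3.trans ?_
    rw [h4]
    exact Real.rpow_le_rpow (Real.rpow_nonneg hi0.le _) hv (by positivity)
  have h5 : ((R + 1) / v) ^ D₂ * (C₀ * ((i : ℝ) + 1) ^ (-(γ * (D₂ + 2 * l + d))) / v ^ (2 * l)) ≤
      (R + 1) ^ D₂ * C₀ * v ^ d := by
    have hR := h.R_nonneg
    have h6 : ((R + 1) / v) ^ D₂ * (C₀ * ((i : ℝ) + 1) ^ (-(γ * (D₂ + 2 * l + d))) / v ^ (2 * l)) ≤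
        ((R + 1) / v) ^ D₂ * (C₀ * (v ^ D₂ * v ^ (2 * l) * v ^ d) / v ^ (2 * l)) := by
      refine mul_le_mul_of_nonneg_left ?_ (pow_nonneg (div_nonneg (by linarith) hv0.le) D₂)
      exact div_le_div_of_nonneg_right h2 (pow_nonneg hv0.le _)
    refine h6.trans (le_of_eq ?_)
    rw [div_pow]
    field_simp
  have h7 : 2 ^ D₂ * (C₁ * (4 * v) ^ d) = 2 ^ D₂ * C₁ * 4 ^ d * v ^ d := by
    rw [Real.mul_rpow (by norm_num) hv0.le]
    ring
  rw [h7] at h1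
  have h8 : ν.real {x | ‖ιX (fib F i ζ x) - ιX x‖ < v} = ν.real (ret ιX (fib F i ζ) 1 v) := by
    simp [ret]
  rw [h8]
  linarith

/-- A short near return of a point of `Z × X` gives a near return at a later time. -/
theorem Skew.short_subset (h : Skew ιZ ιX ιW F g ν l C₀ γ Λ R C₁ d) {m i : ℕ} (hi : 1 ≤ i)
    (him : i < m) {δ v : ℝ} (hv : 2 * (m : ℝ) * Λ ^ (2 * m) * δ ≤ v) (ζ : Z)
    (hζ : ‖ιZ (g^[i] ζ) - ιZ ζ‖ < δ) :
    {x | ‖ιX (fib F i ζ x) - ιX x‖ < δ} ⊆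
      {x | ‖ιX (fib F ((m / i + 1) * i) ζ x) - ιX x‖ < v} := by
  intro x hx
  have hx' : ‖ιX (fib F i ζ x) - ιX x‖ < δ := hx
  have h1 : (ζ, x) ∈ ret ιW F i δ := by
    show ‖ιW (F^[i] (ζ, x)) - ιW (ζ, x)‖ < δ
    rw [h.dist_max, iter_eq h.fst]
    exact max_lt hζ hx'
  have h2 := ret_subset (ι := ιW) h.one_le_Λ h.lip hi him hv h1
  have h3 : ‖ιW (F^[(m / i + 1) * i] (ζ, x)) - ιW (ζ, x)‖ < v := h2
  rw [h.dist_max] at h3
  exact (le_max_right _ _).trans_lt h3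

end Pool.Agent.XP
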