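import Pool.Agent.Lib.MP_1e8d1a_an.XP.T1

/-! Skew products with mixing fibres: the sum of the measures of the returns in the fibres. -/

open MeasureTheory Set Filter Topology

set_option linter.unusedSectionVars false

namespace Pool.Agent.XP

open Pool.Agent.XM (bset)

variable {Z X : Type} [TopologicalSpace Z] [TopologicalSpace X] [MeasurableSpace X] [BorelSpace X]
  {D₁ D₂ D₃ : ℕ} {ιZ : Z → Fin D₁ → ℝ} {ιX : X → Fin D₂ → ℝ} {ιW : Z × X → Fin D₃ → ℝ}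
  {F : Z × X → Z × X} {g : Z → Z} {ν : Measure X} [IsProbabilityMeasure ν] {l : ℕ}
  {C₀ γ Λ R C₁ d : ℝ}

/-- **The sum of the measures of the returns in the fibres** at times at which the base point
returns. -/
theorem Skew.short_sum (h : Skew ιZ ιX ιW F g ν l C₀ γ Λ R C₁ d) :
    ∃ K₂ : ℝ, 0 ≤ K₂ ∧ ∀ ρ : ℝ, 0 < ρ → ∃ δ₀ : ℝ, 0 < δ₀ ∧ ∀ δ : ℝ, 0 < δ → δ ≤ δ₀ →
      ∀ (J : Finset ℕ) (ζ : ℕ → Z), (∀ i ∈ J, 1 ≤ i ∧ ‖ιZ (g^[i] (ζ i)) - ιZ (ζ i)‖ < δ) →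
        ∑ i ∈ J, ν.real {x | ‖ιX (fib F i (ζ i) x) - ιX x‖ < δ} ≤ ρ + J.card * (K₂ * δ ^ d) := by
  classical
  have hd := h.d_pos
  have hR := h.R_nonneg
  have hC₁ := h.C₁_nonneg
  have hC₀ := h.C₀_nonneg
  have hγ := h.γ_pos
  have hγd := h.γd
  have hΛ : (1 : ℝ) ≤ Λ := h.one_le_Λ
  have hΛ0 : (0 : ℝ) < Λ := by linarith
  obtain ⟨A, hA⟩ : ∃ A : ℝ, A = 2 ^ D₂ * C₁ * 4 ^ d + (R + 1) ^ D₂ * C₀ := ⟨_, rfl⟩
  have hA0 : 0 ≤ A := by rw [hA]; positivity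
  have hret : ∀ {n : ℕ}, 1 ≤ n → ∀ {v : ℝ}, (n : ℝ) ^ (-γ) ≤ v → v ≤ 1 / 4 → ∀ ζ : Z,
      ν.real {x | ‖ιX (fib F n ζ x) - ιX x‖ < v} ≤ A * v ^ d := by
    intro n hn v hv hv1 ζ
    rw [hA]
    exact h.ret_one hn hv hv1 ζ
  refine ⟨A, hA0, fun ρ hρ => ?_⟩
  -- the tail of the series
  have hsum : Summable fun n : ℕ => (n : ℝ) ^ (-(γ * d)) := Real.summable_nat_rpow.2 (by linarith)
  have ht1 : Tendsto (fun m : ℕ => A * ∑' j : ℕ, ((j + m : ℕ) : ℝ) ^ (-(γ * d))) atTop (𝓝 0) := by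
    have := (tendsto_sum_nat_add fun n : ℕ => (n : ℝ) ^ (-(γ * d))).const_mul A
    rwa [mul_zero] at this
  have ht2 : Tendsto (fun m : ℕ => A * (m : ℝ) ^ (-(γ * d - 1))) atTop (𝓝 0) := by
    have := ((tendsto_rpow_neg_atTop (by linarith : 0 < γ * d - 1)).comp
      tendsto_natCast_atTop_atTop).const_mul A
    rwa [mul_zero] at this
  have ht3 : Tendsto (fun m : ℕ => (m : ℝ) ^ (-γ)) atTop (𝓝 0) :=
    (tendsto_rpow_neg_atTop hγ).comp tendsto_natCast_atTop_atTop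
  obtain ⟨m, hm1, hm2, hm3, hm4⟩ : ∃ m : ℕ, A * ∑' j : ℕ, ((j + m : ℕ) : ℝ) ^ (-(γ * d)) < ρ / 2 ∧
      A * (m : ℝ) ^ (-(γ * d - 1)) < ρ / 2 ∧ (m : ℝ) ^ (-γ) < 1 / 4 ∧ 1 ≤ m := by
    have hρ2 : 0 < ρ / 2 := by linarith
    exact ((ht1.eventually_lt_const hρ2).and ((ht2.eventually_lt_const hρ2).and
      ((ht3.eventually_lt_const (by norm_num)).and (eventually_ge_atTop 1)))).exists
  have hmR : (1 : ℝ) ≤ m := by exact_mod_cast hm4
  have hm0 : (0 : ℝ) < m := by linarith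
  have hmγ : 0 < (m : ℝ) ^ (-γ) := Real.rpow_pos_of_pos hm0 _
  have hden : 0 < 2 * (m : ℝ) * Λ ^ (2 * m) := by positivity
  refine ⟨min (1 / 4) ((m : ℝ) ^ (-γ) / (2 * (m : ℝ) * Λ ^ (2 * m))),
    lt_min (by norm_num) (div_pos hmγ hden), ?_⟩
  intro δ hδ hδ₀ J ζ hJ
  have hδ4 : δ ≤ 1 / 4 := hδ₀.trans (min_le_left _ _)
  have hδm : 2 * (m : ℝ) * Λ ^ (2 * m) * δ ≤ (m : ℝ) ^ (-γ) := by
    have h1 := hδ₀.trans (min_le_right _ _)
    rw [le_div_iff₀ hden] at h1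
    linarith
  have hAδ : 0 ≤ A * δ ^ d := mul_nonneg hA0 (Real.rpow_nonneg hδ.le _)
  have hterm : ∀ i ∈ J, ν.real {x | ‖ιX (fib F i (ζ i) x) - ιX x‖ < δ} ≤
      (if i < m then A * (m : ℝ) ^ (-(γ * d)) else 0) +
        (if m ≤ i then A * (i : ℝ) ^ (-(γ * d)) else 0) + A * δ ^ d := by
    intro i hi
    obtain ⟨hi1, hi2⟩ := hJ i hi
    have hiR : (1 : ℝ) ≤ i := by exact_mod_cast hi1
    have hi0 : (0 : ℝ) < i := by linarith
    by_cases him : i < m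
    · rw [if_pos him, if_neg (not_le.2 him), add_zero]
      have g1 : m < m / i * i + i := Nat.lt_div_mul_add hi1
      have g2 : (m / i + 1) * i = m / i * i + i := by ring
      have g3 : m ≤ (m / i + 1) * i := by omega
      have g4 : (m : ℝ) ≤ (((m / i + 1) * i : ℕ) : ℝ) := by exact_mod_cast g3
      have g5 : (((m / i + 1) * i : ℕ) : ℝ) ^ (-γ) ≤ (m : ℝ) ^ (-γ) :=
        Real.rpow_le_rpow_of_nonpos hm0 g4 (by linarith)
      have g6 := hret (n := (m / i + 1) * i) (hm4.trans g3) g5 hm3.le (ζ i)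
      have g7 : ((m : ℝ) ^ (-γ)) ^ d = (m : ℝ) ^ (-(γ * d)) := by
        rw [← Real.rpow_mul hm0.le]
        congr 1
        ring
      rw [g7] at g6
      have g8 := measureReal_mono (μ := ν) (h.short_subset hi1 him hδm (ζ i) hi2)
      linarith
    · rw [if_neg him, if_pos (not_lt.1 him), zero_add]
      have hmi : (m : ℝ) ≤ i := by exact_mod_cast not_lt.1 him
      have g1 : (i : ℝ) ^ (-γ) ≤ 1 / 4 :=
        (Real.rpow_le_rpow_of_nonpos hm0 hmi (by linarith)).trans hm3.le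
      have g7 : ((i : ℝ) ^ (-γ)) ^ d = (i : ℝ) ^ (-(γ * d)) := by
        rw [← Real.rpow_mul hi0.le]
        congr 1
        ring
      have g9 : 0 ≤ A * (i : ℝ) ^ (-(γ * d)) := mul_nonneg hA0 (Real.rpow_nonneg hi0.le _)
      rcases le_total δ ((i : ℝ) ^ (-γ)) with hc | hc
      · have g6 := hret hi1 le_rfl g1 (ζ i)
        rw [g7] at g6
        have g8 : ν.real {x | ‖ιX (fib F i (ζ i) x) - ιX x‖ < δ} ≤
            ν.real {x | ‖ιX (fib F i (ζ i) x) - ιX x‖ < (i : ℝ) ^ (-γ)} :=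
          measureReal_mono (fun x hx => lt_of_lt_of_le hx hc)
        linarith
      · have g6 := hret hi1 hc hδ4 (ζ i)
        linarith
  refine (Finset.sum_le_sum hterm).trans ?_
  rw [Finset.sum_add_distrib, Finset.sum_add_distrib]
  have e1 : ∑ i ∈ J, (if i < m then A * (m : ℝ) ^ (-(γ * d)) else 0) ≤ ρ / 2 := by
    rw [← Finset.sum_filter, Finset.sum_const, nsmul_eq_mul]
    have g1 : (J.filter fun i => i < m).card ≤ m := by
      have g2 : J.filter (fun i => i < m) ⊆ Finset.range m := by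
        intro i hi
        exact Finset.mem_range.2 (Finset.mem_filter.1 hi).2
      exact (Finset.card_le_card g2).trans (Finset.card_range m).le
    have g3 : ((J.filter fun i => i < m).card : ℝ) ≤ m := by exact_mod_cast g1
    have g4 : 0 ≤ A * (m : ℝ) ^ (-(γ * d)) := mul_nonneg hA0 (Real.rpow_nonneg hm0.le _)
    have g5 : (m : ℝ) * (A * (m : ℝ) ^ (-(γ * d))) = A * (m : ℝ) ^ (-(γ * d - 1)) := by
      rw [show -(γ * d - 1) = -(γ * d) + 1 by ring, Real.rpow_add hm0, Real.rpow_one]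
      ring
    calc _ ≤ (m : ℝ) * (A * (m : ℝ) ^ (-(γ * d))) := mul_le_mul_of_nonneg_right g3 g4
      _ = A * (m : ℝ) ^ (-(γ * d - 1)) := g5
      _ ≤ ρ / 2 := hm2.le
  have e2 : ∑ i ∈ J, (if m ≤ i then A * (i : ℝ) ^ (-(γ * d)) else 0) ≤ ρ / 2 := by
    rw [← Finset.sum_filter]
    have g1 : J.filter (fun i => m ≤ i) ⊆ Finset.Ico m (m + (J.sup id + 1)) := by
      intro i hi
      rw [Finset.mem_filter] at hi
      have g0 : i ≤ J.sup id := Finset.le_sup (f := id) hi.1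
      rw [Finset.mem_Ico]
      omega
    have g2 : ∑ i ∈ J.filter (fun i => m ≤ i), A * (i : ℝ) ^ (-(γ * d)) ≤
        ∑ i ∈ Finset.Ico m (m + (J.sup id + 1)), A * (i : ℝ) ^ (-(γ * d)) :=
      Finset.sum_le_sum_of_subset_of_nonneg g1 fun i _ _ =>
        mul_nonneg hA0 (Real.rpow_nonneg (Nat.cast_nonneg i) _)
    refine g2.trans ?_
    rw [Finset.sum_Ico_eq_sum_range, ← Finset.mul_sum]
    refine le_trans (mul_le_mul_of_nonneg_left ?_ hA0) hm1.le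
    have g3 : Summable fun j : ℕ => ((j + m : ℕ) : ℝ) ^ (-(γ * d)) :=
      (summable_nat_add_iff m).2 hsum
    have g4 := g3.sum_le_tsum (Finset.range (m + (J.sup id + 1) - m)) fun i _ =>
      Real.rpow_nonneg (Nat.cast_nonneg (i + m)) _
    refine le_trans (le_of_eq (Finset.sum_congr rfl fun j _ => ?_)) g4
    rw [add_comm m j]
  have e3 : ∑ _i ∈ J, A * δ ^ d = J.card * (A * δ ^ d) := by
    rw [Finset.sum_const, nsmul_eq_mul]
  linarith

end Pool.Agent.XP
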