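import Mathlib

/-! Selection of a return in the base: the distance is replaced by the maximum of the distance and a
function of the time gap. -/

open Filter Topology

namespace Pool.Agent.XP

/-- **Selection of the pair.** -/
theorem selection {V : Type} [NormedAddCommGroup V] (r : ℕ) (y : ℕ → V) {ψ : ℕ → ℝ}
    (hψ : ∀ n, 0 < ψ n) (J : Finset ℕ) {R' κ : ℝ} (hJ : ∀ j ∈ J, ‖y j‖ < R') (i₀ j₀ : ℕ)
    (hi₀ : i₀ ∈ J) (hj₀ : j₀ ∈ J) (hij : i₀ < j₀)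
    (hQ : max ‖y i₀ - y j₀‖ (ψ (j₀ - i₀)) ≤ κ * (R' - ‖y i₀‖) ^ r) :
    ∃ a ∈ J, ∃ b ∈ J, a < b ∧ ∃ μ s : ℝ, 0 < μ ∧ μ ≤ R' - ‖y a‖ ∧ 0 < s ∧ s ≤ κ * μ ^ r ∧
      ‖y a - y b‖ ≤ s ∧ ψ (b - a) ≤ s ∧
      ∀ l ∈ J, ∀ l' ∈ J, l < l' → ‖y l - y a‖ ≤ μ / 4 →
        s ≤ 2 ^ r * max ‖y l - y l'‖ (ψ (l' - l)) := by
  classical
  set P : Finset (ℕ × ℕ) := (J ×ˢ J).filter (fun p => p.1 < p.2) with hP
  have hmem : (i₀, j₀) ∈ P := by
    rw [hP, Finset.mem_filter, Finset.mem_product]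
    exact ⟨⟨hi₀, hj₀⟩, hij⟩
  obtain ⟨⟨a, b⟩, hab, hmin⟩ := Finset.exists_min_image P
    (fun p => max ‖y p.1 - y p.2‖ (ψ (p.2 - p.1)) / (R' - ‖y p.1‖) ^ r) ⟨_, hmem⟩
  rw [hP, Finset.mem_filter, Finset.mem_product] at hab
  obtain ⟨⟨ha, hb⟩, hlt⟩ := hab
  simp only at ha hb hlt
  set μ : ℝ := R' - ‖y a‖ with hμ
  have hμ0 : 0 < μ := by have := hJ a ha; simp only [hμ]; linarith
  have hμr : 0 < μ ^ r := pow_pos hμ0 r
  have hpos0 : 0 < (R' - ‖y i₀‖) ^ r := pow_pos (by have := hJ i₀ hi₀; linarith) r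
  set s : ℝ := max ‖y a - y b‖ (ψ (b - a)) with hs
  have hs0 : 0 < s := lt_of_lt_of_le (hψ _) (le_max_right _ _)
  have h1 : s / μ ^ r ≤ κ := by
    have h2 := hmin _ hmem
    simp only at h2
    refine h2.trans ?_
    rw [div_le_iff₀ hpos0]
    exact hQ
  have h2 : s ≤ κ * μ ^ r := (div_le_iff₀ hμr).mp h1
  refine ⟨a, ha, b, hb, hlt, μ, s, hμ0, le_rfl, hs0, h2, le_max_left _ _, le_max_right _ _, ?_⟩
  intro l hl l' hl' hll hla
  have h3 : ‖y l‖ ≤ ‖y l - y a‖ + ‖y a‖ := by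
    calc ‖y l‖ = ‖(y l - y a) + y a‖ := by rw [sub_add_cancel]
      _ ≤ ‖y l - y a‖ + ‖y a‖ := norm_add_le _ _
  have h4 : μ / 2 ≤ R' - ‖y l‖ := by
    have : ‖y a‖ = R' - μ := by simp only [hμ]; ring
    linarith
  have h5 : 0 < (R' - ‖y l‖) ^ r := pow_pos (by linarith) r
  have h6 := hmin (l, l') (by
    rw [hP, Finset.mem_filter, Finset.mem_product]
    exact ⟨⟨hl, hl'⟩, hll⟩)
  simp only at h6
  rw [le_div_iff₀ h5] at h6
  have h7 : (μ / 2) ^ r ≤ (R' - ‖y l‖) ^ r := pow_le_pow_left₀ (by linarith) h4 r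
  have h8 : s / μ ^ r * (μ / 2) ^ r ≤ max ‖y l - y l'‖ (ψ (l' - l)) :=
    (mul_le_mul_of_nonneg_left h7 (by positivity)).trans h6
  have h9 : s / μ ^ r * (μ / 2) ^ r = s / 2 ^ r := by
    rw [div_pow]
    field_simp
  rw [h9, div_le_iff₀ (by positivity)] at h8
  linarith

/-- A finite set of times such that the times with a gap larger than `n₀` satisfy a packing bound has
at most `(n₀ + 1) P` elements. -/
theorem count (J : Finset ℕ) (n₀ : ℕ) {P : ℝ}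
    (hP : ∀ T ⊆ J, (∀ l ∈ T, ∀ l' ∈ T, l < l' → n₀ < l' - l) → (T.card : ℝ) ≤ P) :
    (J.card : ℝ) ≤ (n₀ + 1) * P := by
  have h1 : J.card = ∑ c ∈ Finset.range (n₀ + 1), (J.filter fun l => l % (n₀ + 1) = c).card :=
    Finset.card_eq_sum_card_fiberwise (fun l _ => by
      simp only [Finset.coe_range, Set.mem_Iio]
      exact Nat.mod_lt _ (Nat.succ_pos _))
  rw [h1]
  push_cast
  calc ∑ c ∈ Finset.range (n₀ + 1), ((J.filter fun l => l % (n₀ + 1) = c).card : ℝ)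
      ≤ ∑ _c ∈ Finset.range (n₀ + 1), P := by
        refine Finset.sum_le_sum fun c _ => hP _ (Finset.filter_subset _ _) ?_
        intro l hl l' hl' hll
        rw [Finset.mem_filter] at hl hl'
        have h2 : l % (n₀ + 1) = l' % (n₀ + 1) := hl.2.trans hl'.2.symm
        have h3 : (n₀ + 1) ∣ l' - l := (Nat.modEq_iff_dvd' hll.le).mp h2
        have h4 := Nat.le_of_dvd (by omega) h3
        omega
    _ = (n₀ + 1) * P := by
        rw [Finset.sum_const, Finset.card_range, nsmul_eq_mul]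
        push_cast
        ring

/-- the function of the time gap: a power with the exponent `-1/τ` -/
noncomputable def gauge (τ : ℝ) (n : ℕ) : ℝ := ((n : ℝ) + 1) ^ (-τ⁻¹)

theorem gauge_pos (τ : ℝ) (n : ℕ) : 0 < gauge τ n := Real.rpow_pos_of_pos (by positivity) _

theorem gauge_anti {τ : ℝ} (hτ : 0 < τ) {m n : ℕ} (h : m ≤ n) : gauge τ n ≤ gauge τ m := by
  have h1 : (m : ℝ) ≤ n := by exact_mod_cast h
  have h2 : 0 < τ⁻¹ := inv_pos.2 hτ
  exact Real.rpow_le_rpow_of_nonpos (by positivity) (by linarith) (by linarith)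

theorem gauge_tendsto {τ : ℝ} (hτ : 0 < τ) : Tendsto (gauge τ) atTop (𝓝 0) := by
  have h2 : 0 < τ⁻¹ := inv_pos.2 hτ
  have h3 : Tendsto (fun n : ℕ => (n : ℝ) + 1) atTop atTop :=
    tendsto_atTop_add_const_right _ _ tendsto_natCast_atTop_atTop
  exact (tendsto_rpow_neg_atTop h2).comp h3

/-- The rate at a time with a small gauge. -/
theorem rate_of_gauge {τ : ℝ} (hτ : 0 < τ) {n : ℕ} {s : ℝ} (hs : 0 < s) (h : gauge τ n ≤ s) {κ : ℝ}
    (hκ : 0 ≤ κ) : ((n : ℝ) + 1) ^ (-κ) ≤ s ^ (τ * κ) := by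
  have h0 : (0 : ℝ) < (n : ℝ) + 1 := by positivity
  have h1 : ((n : ℝ) + 1) ^ (-κ) = (gauge τ n) ^ (τ * κ) := by
    rw [gauge, ← Real.rpow_mul h0.le]
    congr 1
    field_simp
  rw [h1]
  exact Real.rpow_le_rpow (gauge_pos τ n).le h (by positivity)

/-- For `0 < s ≤ 1` there is `n₀` with a gauge smaller than `s / c` and `n₀ + 1 ≤ K s^(-τ)`. -/
theorem gap {c τ : ℝ} (hc : 1 ≤ c) (hτ : 0 < τ) :
    ∃ K : ℝ, 0 < K ∧ ∀ s : ℝ, 0 < s → s ≤ 1 → ∃ n₀ : ℕ, gauge τ n₀ < s / c ∧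
      ((n₀ : ℝ) + 1) ≤ K * s ^ (-τ) := by
  have hc0 : 0 < c := by linarith
  refine ⟨3 * c ^ τ, by positivity, ?_⟩
  intro s hs hs1
  have hsc : 0 < s / c := by positivity
  have hsc1 : s / c ≤ 1 := by
    rw [div_le_one (by linarith)]
    linarith
  set x : ℝ := (s / c) ^ (-τ) with hx
  have hx1 : 1 ≤ x := Real.one_le_rpow_of_pos_of_le_one_of_nonpos hsc hsc1 (by linarith)
  refine ⟨⌈x⌉₊, ?_, ?_⟩
  · have h1 : x < (⌈x⌉₊ : ℝ) + 1 := (Nat.le_ceil x).trans_lt (lt_add_one _)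
    have h2 : x ^ (-τ⁻¹) = s / c := by
      rw [hx, ← Real.rpow_mul hsc.le]
      have : -τ * -τ⁻¹ = 1 := by field_simp
      rw [this, Real.rpow_one]
    rw [gauge, ← h2]
    have h3 : 0 < τ⁻¹ := inv_pos.2 hτ
    exact Real.rpow_lt_rpow_of_neg (by linarith) h1 (by linarith)
  · have h1 : (⌈x⌉₊ : ℝ) < x + 1 := Nat.ceil_lt_add_one (by linarith)
    have h2 : x = c ^ τ * s ^ (-τ) := by
      rw [hx, Real.div_rpow hs.le hc0.le, Real.rpow_neg hc0.le]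
      field_simp
    have h3 : ((⌈x⌉₊ : ℝ) + 1) ≤ 3 * x := by linarith
    rw [h2] at h3
    linarith

end Pool.Agent.XP
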