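import Pool.Agent.Lib.MP_1e8d1a_an.XP.T2
import Pool.Agent.Lib.MP_1e8d1a_an.XP.T3

/-! The core for skew products over an arbitrary map (real dimension of the base). -/

open MeasureTheory Set Filter Topology

set_option linter.unusedSectionVars false

namespace Pool.Agent.XP

open Pool.Agent.XM (bset bset_measurable)
open Pool.Agent.XN (pair_selection)

/-- The exponents. -/
theorem num (r : ℕ) (dZ : ℝ) {d κ τ : ℝ} (hκ : 0 < κ) {δ : ℝ} (hδ : 0 < δ) :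
    (κ * δ ^ r) ^ (-τ) * ((2 ^ r * δ / (4 * (κ * δ ^ r))) ^ dZ * δ ^ d) =
    κ ^ (-τ) * (2 ^ r / (4 * κ)) ^ dZ * δ ^ (d - ((r : ℝ) - 1) * dZ - r * τ) := by
  have h1 : (κ * δ ^ r) ^ (-τ) = κ ^ (-τ) * δ ^ (-(r * τ)) := by
    rw [Real.mul_rpow hκ.le (by positivity), ← Real.rpow_natCast δ r, ← Real.rpow_mul hδ.le]
    congr 2
    ring
  have h2 : 2 ^ r * δ / (4 * (κ * δ ^ r)) = 2 ^ r / (4 * κ) * δ ^ (-((r : ℝ) - 1)) := by
    have h3 : δ ^ (-((r : ℝ) - 1)) = δ / δ ^ r := by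
      rw [neg_sub, Real.rpow_sub hδ, Real.rpow_one, Real.rpow_natCast]
    rw [h3]
    field_simp
  have h4 : (δ ^ (-((r : ℝ) - 1))) ^ dZ = δ ^ (-(((r : ℝ) - 1) * dZ)) := by
    rw [← Real.rpow_mul hδ.le]
    congr 1
    ring
  rw [h1, h2, Real.mul_rpow (by positivity) (by positivity), h4]
  have h5 : δ ^ (-(r * τ)) * (δ ^ (-(((r : ℝ) - 1) * dZ)) * δ ^ d) =
      δ ^ (d - ((r : ℝ) - 1) * dZ - r * τ) := by
    rw [← Real.rpow_add hδ, ← Real.rpow_add hδ]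
    congr 1
    ring
  calc κ ^ (-τ) * δ ^ (-(r * τ)) *
        ((2 ^ r / (4 * κ)) ^ dZ * δ ^ (-(((r : ℝ) - 1) * dZ)) * δ ^ d)
      = κ ^ (-τ) * (2 ^ r / (4 * κ)) ^ dZ *
        (δ ^ (-(r * τ)) * (δ ^ (-(((r : ℝ) - 1) * dZ)) * δ ^ d)) := by ring
    _ = _ := by rw [h5]

variable {Z X : Type} [TopologicalSpace Z] [TopologicalSpace X] [MeasurableSpace X] [BorelSpace X]
  {D₁ D₂ D₃ : ℕ} {ιZ : Z → Fin D₁ → ℝ} {ιX : X → Fin D₂ → ℝ} {ιW : Z × X → Fin D₃ → ℝ}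
  {F : Z × X → Z × X} {g : Z → Z} {ν : Measure X} [IsProbabilityMeasure ν] {l : ℕ}
  {C₀ γ Λ R C₁ d : ℝ}

/-- Packing bound near `z₀`: points near `z` with distances at least `s` within `ρ` of `z` are at most
`K (ρ/s)^e`. -/
def Packing {Z : Type} {D₁ : ℕ} (ιZ : Z → Fin D₁ → ℝ) (z₀ : Z) (e : ℝ) : Prop :=
  ∃ K η : ℝ, 1 ≤ K ∧ 0 < η ∧ ∀ z : Z, ‖ιZ z - ιZ z₀‖ < η → ∀ (T : Finset ℕ) (c : ℕ → Z) (ρ s : ℝ),
    0 < s → s ≤ ρ → ρ ≤ η → (∀ i ∈ T, ‖ιZ (c i) - ιZ z‖ ≤ ρ) →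
    (∀ i ∈ T, ∀ j ∈ T, i ≠ j → s ≤ ‖ιZ (c i) - ιZ (c j)‖) → (T.card : ℝ) ≤ K * (ρ / s) ^ e

/-- `z₀` has near returns at arbitrarily large times. -/
def LateReturns {Z : Type} {D₁ : ℕ} (ιZ : Z → Fin D₁ → ℝ) (g : Z → Z) (z₀ : Z) : Prop :=
  ∀ (ρ : ℝ) (n₁ : ℕ), 0 < ρ → ∃ n, n₁ ≤ n ∧ ∃ z, ‖ιZ z - ιZ z₀‖ < ρ ∧ ‖ιZ (g^[n] z) - ιZ z₀‖ < ρ

/-- the points of the fibre moved less than `v` by the map `fib F i ζ` -/
def mv {Z X : Type} {D₂ : ℕ} (ιX : X → Fin D₂ → ℝ) (F : Z × X → Z × X) (i : ℕ) (ζ : Z) (v : ℝ) : Set X :=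
  {x | ‖ιX (fib F i ζ x) - ιX x‖ < v}

theorem mv_measurable (hX : Continuous ιX) (hF : Continuous F) (i : ℕ) (ζ : Z) (v : ℝ) :
    MeasurableSet (mv ιX F i ζ v) := by
  have h1 : Continuous fun x => ‖ιX (fib F i ζ x) - ιX x‖ :=
    ((hX.comp (fib_continuous hF i ζ)).sub hX).norm
  exact (isOpen_lt h1 continuous_const).measurableSet

/-- the bad points of the fibre -/
def sbad {Z X : Type} {D₂ : ℕ} (ιX : X → Fin D₂ → ℝ) (F : Z × X → Z × X) (g : Z → Z) (J : Finset ℕ) (N : ℕ)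
    (z : Z) (v : ℝ) : Set X :=
  (⋃ j ∈ J, mv ιX F j z v) ∪ ⋃ j ∈ J, fib F j z ⁻¹' mv ιX F (N - j) (g^[j] z) v

theorem sbad_measurable (hX : Continuous ιX) (hF : Continuous F) (J : Finset ℕ) (N : ℕ) (z : Z) (v : ℝ) :
    MeasurableSet (sbad ιX F g J N z v) := by
  refine MeasurableSet.union ?_ ?_
  · exact Finset.measurableSet_biUnion _ fun j _ => mv_measurable hX hF j z v
  · exact Finset.measurableSet_biUnion _ fun j _ =>
      (fib_continuous hF j z).measurable (mv_measurable hX hF (N - j) _ v)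

theorem sbad_le (h : Skew ιZ ιX ιW F g ν l C₀ γ Λ R C₁ d) (J : Finset ℕ) (N : ℕ) (z : Z) (v : ℝ) :
    ν.real (sbad ιX F g J N z v) ≤ ∑ j ∈ J, ν.real (mv ιX F j z v) +
      ∑ j ∈ J, ν.real (mv ιX F (N - j) (g^[j] z) v) := by
  have h1 : ν.real (⋃ j ∈ J, mv ιX F j z v) ≤ ∑ j ∈ J, ν.real (mv ιX F j z v) :=
    measureReal_biUnion_finset_le _ _
  have h2 : ν.real (⋃ j ∈ J, fib F j z ⁻¹' mv ιX F (N - j) (g^[j] z) v) ≤
      ∑ j ∈ J, ν.real (mv ιX F (N - j) (g^[j] z) v) := by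
    refine (measureReal_biUnion_finset_le _ _).trans (le_of_eq ?_)
    refine Finset.sum_congr rfl fun j _ => ?_
    unfold Measure.real
    rw [(fib_mp h.fst h.inv j z).measure_preimage
      (mv_measurable h.contX h.contF (N - j) _ v).nullMeasurableSet]
  exact (measureReal_union_le _ _).trans (add_le_add h1 h2)

theorem notMem_sbad (hg : ∀ w, (F w).1 = g w.1) {J : Finset ℕ} {N : ℕ} {z : Z} {v : ℝ} {x : X}
    (hx : x ∉ sbad ιX F g J N z v) {j : ℕ} (hj : j ∈ J) (hjN : j ≤ N) :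
    v ≤ ‖ιX (fib F j z x) - ιX x‖ ∧ v ≤ ‖ιX (fib F j z x) - ιX (fib F N z x)‖ := by
  constructor
  · by_contra hlt
    apply hx
    refine Or.inl ?_
    rw [mem_iUnion₂]
    exact ⟨j, hj, not_le.mp hlt⟩
  · by_contra hlt
    apply hx
    refine Or.inr ?_
    rw [mem_iUnion₂]
    refine ⟨j, hj, ?_⟩
    show ‖ιX (fib F (N - j) (g^[j] z) (fib F j z x)) - ιX (fib F j z x)‖ < v
    rw [← fib_add hg, Nat.sub_add_cancel hjN, norm_sub_rev]
    exact not_le.mp hlt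

/-- **The core for skew products.** -/
theorem Skew.core (h : Skew ιZ ιX ιW F g ν l C₀ γ Λ R C₁ d) {dZ : ℝ} {r : ℕ} (hr : 1 ≤ r)
    {τ : ℝ} (hτ0 : 0 < τ) (hdim : r * τ < d - ((r : ℝ) - 1) * dZ)
    (hrate : (2 * D₂ + 2 * l : ℝ) < τ * (γ * (D₂ + 2 * l + d)))
    (z₀ : Z) (hpack : Packing ιZ z₀ dZ)
    (hnw : LateReturns ιZ g z₀) (c c' : Fin D₂ → ℝ)
    (hc : ∀ η : ℝ, 0 < η → 0 < ν.real (bset ιX c η))
    (hc' : ∀ η : ℝ, 0 < η → 0 < ν.real (bset ιX c' η)) {ε η : ℝ} (hε : 0 < ε) (hη : 0 < η) :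
    ∃ (w w' : Z × X) (N : ℕ) (δ : ℝ), 1 ≤ N ∧ 0 < δ ∧ δ ≤ η ∧ ‖ιZ w.1 - ιZ z₀‖ < η ∧
      ‖ιX w.2 - c‖ < η ∧ ‖ιZ w'.1 - ιZ z₀‖ < η ∧ ‖ιX w'.2 - c'‖ < η ∧
      ‖ιW (F^[N] w) - ιW w'‖ < ε * δ ^ r ∧ ‖ιW (F^[N] w') - ιW w‖ < ε * δ ^ r ∧
      ∀ j, 0 < j → j < N → δ ≤ ‖ιW (F^[j] w) - ιW w‖ ∧ δ ≤ ‖ιW (F^[j] w) - ιW w'‖ ∧
        δ ≤ ‖ιW (F^[j] w') - ιW w‖ ∧ δ ≤ ‖ιW (F^[j] w') - ιW w'‖ := by
  classical
  have hC0 := h.C₀_nonneg
  have hd := h.d_pos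
  have hγ0 := h.γ_pos
  have hrR : (1 : ℝ) ≤ r := by exact_mod_cast hr
  -- constants
  obtain ⟨K₂, hK₂, hshort⟩ := h.short_sum
  obtain ⟨CP, ηP, hCP, hηP, hpk⟩ := hpack
  set η₁ : ℝ := η / 2 with hη₁
  have hη₁0 : 0 < η₁ := by positivity
  set a₀ : ℝ := ν.real (bset ιX c (η₁ / 2)) with ha₀
  set a₀' : ℝ := ν.real (bset ιX c' (η₁ / 2)) with ha₀'
  have ha0 : 0 < a₀ := hc _ (by positivity)
  have ha'0 : 0 < a₀' := hc' _ (by positivity)
  set κ : ℝ := min (ε / (8 * 8 ^ r)) (1 / 32) with hκ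
  have hκ0 : 0 < κ := by positivity
  have hκ1 : κ ≤ 1 / 32 := min_le_right _ _
  have hκ2 : κ ≤ ε / (8 * 8 ^ r) := min_le_left _ _
  obtain ⟨κm, hκm⟩ : ∃ κm : ℝ, κm = γ * (D₂ + 2 * l + d) := ⟨_, rfl⟩
  rw [← hκm] at hrate
  have hκm0 : 0 ≤ κm := by
    rw [hκm]
    positivity
  obtain ⟨q, hq⟩ : ∃ q : ℝ, q = τ * κm - (2 * D₂ + 2 * l) := ⟨_, rfl⟩
  have hq0 : 0 < q := by linarith
  obtain ⟨e, he⟩ : ∃ e : ℝ, e = d - ((r : ℝ) - 1) * dZ - r * τ := ⟨_, rfl⟩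
  have he0' : 0 < e := by linarith
  obtain ⟨K₃, hK₃, hgap⟩ := gap (c := 2 ^ r) (one_le_pow₀ (by norm_num)) hτ0
  set ρ₀ : ℝ := a₀ * a₀' / (32 * 4 ^ D₂) with hρ₀
  have hρ₀0 : 0 < ρ₀ := by positivity
  obtain ⟨δ₀, hδ₀, hshort⟩ := hshort ρ₀ hρ₀0
  set Kc : ℝ := K₃ * CP * K₂ * (κ ^ (-τ) * (2 ^ r / (4 * κ)) ^ dZ) with hKc
  have hKc0 : 0 ≤ Kc := by positivity
  set δm : ℝ := (ρ₀ / (Kc + 1)) ^ (1 / e) with hδm
  have hδm0 : 0 < δm := Real.rpow_pos_of_pos (by positivity) _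
  have hδmle : ∀ δ : ℝ, 0 < δ → δ ≤ δm → Kc * δ ^ e ≤ ρ₀ := by
    intro δ hδ hle
    have h1 : δ ^ e ≤ ρ₀ / (Kc + 1) := by
      have h2 : δ ^ e ≤ δm ^ e := Real.rpow_le_rpow hδ.le hle he0'.le
      have h3 : δm ^ e = ρ₀ / (Kc + 1) := by
        rw [hδm, ← Real.rpow_mul (by positivity)]
        have : 1 / e * e = 1 := by field_simp
        rw [this, Real.rpow_one]
      linarith
    calc Kc * δ ^ e ≤ Kc * (ρ₀ / (Kc + 1)) := mul_le_mul_of_nonneg_left h1 hKc0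
      _ = ρ₀ * (Kc / (Kc + 1)) := by ring
      _ ≤ ρ₀ * 1 := by
        refine mul_le_mul_of_nonneg_left ?_ hρ₀0.le
        rw [div_le_one (by linarith)]
        linarith
      _ = ρ₀ := mul_one _
  set Y : ℝ := (2 * η₁) ^ D₂ * (2 * η₁) ^ D₂ * C₀ + 1 with hY
  have hY0 : 0 < Y := by positivity
  set sm : ℝ := (1 / 4 * 4 ^ D₂ * (a₀ * a₀') / Y) ^ (1 / q) with hsm
  have hsm0 : 0 < sm := Real.rpow_pos_of_pos (by positivity) _
  have hsmle : ∀ s : ℝ, 0 < s → s ≤ sm → s ^ q * Y ≤ 1 / 4 * 4 ^ D₂ * (a₀ * a₀') := by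
    intro s hs hle
    have h2 : s ^ q ≤ sm ^ q := Real.rpow_le_rpow hs.le hle hq0.le
    have h3 : sm ^ q = 1 / 4 * 4 ^ D₂ * (a₀ * a₀') / Y := by
      rw [hsm, ← Real.rpow_mul (by positivity)]
      have : 1 / q * q = 1 := by field_simp
      rw [this, Real.rpow_one]
    rw [h3, le_div_iff₀ hY0] at h2
    exact h2
  set R' : ℝ := min (min 1 (η₁ / 2)) (min (min ηP δ₀) (min δm sm)) with hR'
  have hR'0 : 0 < R' := by
    have h1 : 0 < min (1 : ℝ) (η₁ / 2) := by positivity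
    have h2 : 0 < min ηP δ₀ := lt_min hηP hδ₀
    have h3 : 0 < min δm sm := lt_min hδm0 hsm0
    exact lt_min h1 (lt_min h2 h3)
  have hRa : R' ≤ 1 := (min_le_left _ _).trans (min_le_left _ _)
  have hRb : R' ≤ η₁ / 2 := (min_le_left _ _).trans (min_le_right _ _)
  have hRc : R' ≤ ηP := (min_le_right _ _).trans ((min_le_left _ _).trans (min_le_left _ _))
  have hRd : R' ≤ δ₀ := (min_le_right _ _).trans ((min_le_left _ _).trans (min_le_right _ _))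
  have hRe : R' ≤ δm := (min_le_right _ _).trans ((min_le_right _ _).trans (min_le_left _ _))
  have hRf : R' ≤ sm := (min_le_right _ _).trans ((min_le_right _ _).trans (min_le_right _ _))
  -- the start pair
  have hQ0 : 0 < κ * (R' / 2) ^ r := by positivity
  obtain ⟨n₁, hn₁⟩ : ∃ n₁ : ℕ, gauge τ n₁ < κ * (R' / 2) ^ r :=
    ((gauge_tendsto hτ0).eventually_lt_const hQ0).exists
  obtain ⟨n, hn, z, hz1, hz2⟩ := hnw (min (R' / 2) (κ * (R' / 2) ^ r / 2)) (n₁ + 1)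
    (lt_min (by positivity) (by positivity))
  set y : ℕ → Fin D₁ → ℝ := fun j => ιZ (g^[j] z) - ιZ z₀ with hy
  set J : Finset ℕ := (Finset.range (n + 1)).filter (fun j => ‖y j‖ < R') with hJdef
  have hy0 : ‖y 0‖ < min (R' / 2) (κ * (R' / 2) ^ r / 2) := hz1
  have hyn : ‖y n‖ < min (R' / 2) (κ * (R' / 2) ^ r / 2) := hz2
  have hy0' : ‖y 0‖ < R' / 2 := hy0.trans_le (min_le_left _ _)
  have h0J : 0 ∈ J := by
    rw [hJdef, Finset.mem_filter, Finset.mem_range]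
    exact ⟨by omega, by linarith⟩
  have hnJ : n ∈ J := by
    rw [hJdef, Finset.mem_filter, Finset.mem_range]
    exact ⟨by omega, by linarith [hyn.trans_le (min_le_left _ _)]⟩
  have hQ : max ‖y 0 - y n‖ (gauge τ (n - 0)) ≤ κ * (R' - ‖y 0‖) ^ r := by
    have h1 : κ * (R' / 2) ^ r ≤ κ * (R' - ‖y 0‖) ^ r := by
      refine mul_le_mul_of_nonneg_left (pow_le_pow_left₀ (by positivity) (by linarith) r) hκ0.le
    refine le_trans (max_le ?_ ?_) h1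
    · have h2 := norm_sub_le (y 0) (y n)
      have h3 := hy0.trans_le (min_le_right _ _)
      have h4 := hyn.trans_le (min_le_right _ _)
      linarith
    · exact (gauge_anti hτ0 (by omega : n₁ ≤ n - 0)).trans hn₁.le
  obtain ⟨a, ha, b, hb, hab, μ, s, hμ, hμR, hs0, hsμ, hdist, hpow, hsep⟩ :=
    selection r y (gauge_pos τ) J (R' := R') (κ := κ) (fun j hj => (Finset.mem_filter.mp hj).2) 0 n h0J hnJ
      (by omega) hQ
  have haR : ‖y a‖ < R' := (Finset.mem_filter.mp ha).2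
  have hbn : b ≤ n := by
    have := Finset.mem_range.mp (Finset.mem_filter.mp hb).1
    omega
  have hμR' : μ ≤ R' := by linarith [norm_nonneg (y a)]
  -- the scale
  set δ : ℝ := (s / κ) ^ ((r : ℝ)⁻¹) with hδdef
  have hδ : 0 < δ := Real.rpow_pos_of_pos (by positivity) _
  have hδr : δ ^ r = s / κ := Real.rpow_inv_natCast_pow (by positivity) (by omega)
  have hs : s = κ * δ ^ r := by
    rw [hδr]
    field_simp
  have hδμ : δ ≤ μ := by
    have h1 : δ ^ r ≤ μ ^ r := by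
      rw [hδr, div_le_iff₀ hκ0]
      linarith
    exact le_of_pow_le_pow_left₀ (by omega) hμ.le h1
  have hδR : δ ≤ R' := hδμ.trans hμR'
  have hδ1 : δ ≤ 1 := hδR.trans hRa
  have hδrδ : δ ^ r ≤ δ := by
    calc δ ^ r ≤ δ ^ 1 := pow_le_pow_of_le_one hδ.le hδ1 hr
      _ = δ := pow_one δ
  have hs32 : s ≤ δ / 32 := by
    rw [hs]
    calc κ * δ ^ r ≤ 1 / 32 * δ := mul_le_mul hκ1 hδrδ (by positivity) (by norm_num)
      _ = δ / 32 := by ring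
  have hs1 : s ≤ 1 := by linarith
  -- the base orbit
  set z' : Z := g^[a] z with hz'
  set N : ℕ := b - a with hN
  have hN1 : 1 ≤ N := by omega
  have hyl : ∀ l, ιZ (g^[l] z') - ιZ z' = y (a + l) - y a := by
    intro l
    simp only [hy, hz']
    rw [← Function.iterate_add_apply, add_comm l a]
    abel
  have hbN : a + N = b := by omega
  set J' : Finset ℕ := (Finset.Ico 1 N).filter (fun l => ‖y (a + l) - y a‖ < δ / 4) with hJ'
  -- the count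
  obtain ⟨n₀, hn₀1, hn₀2⟩ := hgap s hs0 hs1
  have hcount : (J'.card : ℝ) ≤ (n₀ + 1) * (CP * ((δ / 4) / (s / 2 ^ r)) ^ dZ) := by
    refine count J' n₀ ?_
    intro T hT hTgap
    have hmemT : ∀ l ∈ T, 1 ≤ l ∧ l < N ∧ ‖y (a + l) - y a‖ < δ / 4 := by
      intro l hl
      have := hT hl
      rw [hJ', Finset.mem_filter, Finset.mem_Ico] at this
      exact ⟨this.1.1, this.1.2, this.2⟩
    have hJmem : ∀ l ∈ T, a + l ∈ J := by
      intro l hl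
      obtain ⟨h1, h2, h3⟩ := hmemT l hl
      rw [hJdef, Finset.mem_filter, Finset.mem_range]
      refine ⟨by omega, ?_⟩
      have h4 : ‖y (a + l)‖ ≤ ‖y (a + l) - y a‖ + ‖y a‖ := by
        calc ‖y (a + l)‖ = ‖(y (a + l) - y a) + y a‖ := by rw [sub_add_cancel]
          _ ≤ _ := norm_add_le _ _
      linarith
    have hlt : ∀ l ∈ T, ∀ l' ∈ T, l < l' → s / 2 ^ r ≤ ‖y (a + l) - y (a + l')‖ := by
      intro l hl l' hl' hll
      have h1 := hsep (a + l) (hJmem l hl) (a + l') (hJmem l' hl') (by omega)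
        (by linarith [(hmemT l hl).2.2])
      have h2 : a + l' - (a + l) = l' - l := by omega
      rw [h2] at h1
      have h3 : gauge τ (l' - l) < s / 2 ^ r :=
        (gauge_anti hτ0 (hTgap l hl l' hl' hll).le).trans_lt hn₀1
      rcases le_total ‖y (a + l) - y (a + l')‖ (gauge τ (l' - l)) with h4 | h4
      · rw [max_eq_right h4] at h1
        rw [lt_div_iff₀ (by positivity)] at h3
        linarith
      · rw [max_eq_left h4] at h1
        rw [div_le_iff₀ (by positivity)]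
        linarith
    refine hpk z' ?_ T (fun l => g^[l] z') (δ / 4) (s / 2 ^ r) (by positivity) ?_ (by linarith) ?_ ?_
    · show ‖y a‖ < ηP
      linarith
    · have h1 : s / 2 ^ r ≤ s := div_le_self hs0.le (one_le_pow₀ (by norm_num))
      linarith
    · intro l hl
      rw [hyl l]
      exact (hmemT l hl).2.2.le
    · intro l hl l' hl' hne
      have e1 : ∀ l l' : ℕ, ιZ (g^[l] z') - ιZ (g^[l'] z') = y (a + l) - y (a + l') := by
        intro l l'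
        have h1 := hyl l
        have h2 := hyl l'
        have h3 : ιZ (g^[l] z') - ιZ (g^[l'] z') =
            (ιZ (g^[l] z') - ιZ z') - (ιZ (g^[l'] z') - ιZ z') := by abel
        rw [h3, h1, h2]
        abel
      show s / 2 ^ r ≤ ‖ιZ (g^[l] z') - ιZ (g^[l'] z')‖
      rw [e1]
      rcases lt_or_gt_of_ne hne with h1 | h1
      · exact hlt l hl l' hl' h1
      · rw [norm_sub_rev]
        exact hlt l' hl' l hl h1
  have hJK : (J'.card : ℝ) * (K₂ * (δ / 2) ^ d) ≤ ρ₀ := by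
    have h1 : (δ / 2) ^ d ≤ δ ^ d := Real.rpow_le_rpow (by positivity) (by linarith) hd.le
    have h2 : (J'.card : ℝ) * (K₂ * (δ / 2) ^ d) ≤
        (K₃ * s ^ (-τ) * (CP * ((δ / 4) / (s / 2 ^ r)) ^ dZ)) * (K₂ * δ ^ d) := by
      refine mul_le_mul ?_ (mul_le_mul_of_nonneg_left h1 hK₂) (by positivity) (by positivity)
      exact hcount.trans (mul_le_mul_of_nonneg_right hn₀2 (by positivity))
    refine h2.trans ?_
    have h3 : (δ / 4) / (s / 2 ^ r) = 2 ^ r * δ / (4 * (κ * δ ^ r)) := by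
      rw [← hs]
      field_simp
    have h4 := num r dZ (d := d) (τ := τ) hκ0 hδ
    rw [← he] at h4
    calc K₃ * s ^ (-τ) * (CP * ((δ / 4) / (s / 2 ^ r)) ^ dZ) * (K₂ * δ ^ d)
        = K₃ * CP * K₂ * ((κ * δ ^ r) ^ (-τ) * ((2 ^ r * δ / (4 * (κ * δ ^ r))) ^ dZ * δ ^ d)) := by
          rw [h3, ← hs]
          ring
      _ = Kc * δ ^ e := by
          rw [h4, hKc]
          ring
      _ ≤ ρ₀ := hδmle δ hδ (hδR.trans hRe)
  -- the bad points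
  set Bad : Set X := sbad ιX F g J' N z' (δ / 4) with hBad
  have hBadm : MeasurableSet Bad := sbad_measurable h.contX h.contF J' N z' (δ / 4)
  have hmvmono : ∀ (i : ℕ) (ζ : Z), ν.real (mv ιX F i ζ (δ / 4)) ≤ ν.real (mv ιX F i ζ (δ / 2)) := by
    intro i ζ
    refine measureReal_mono (fun x hx => ?_)
    have hx' : ‖ιX (fib F i ζ x) - ιX x‖ < δ / 4 := hx
    show ‖ιX (fib F i ζ x) - ιX x‖ < δ / 2
    linarith
  have hsum1 : ∑ j ∈ J', ν.real (mv ιX F j z' (δ / 4)) ≤ 2 * ρ₀ := by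
    have h1 := hshort (δ / 2) (by positivity) (by linarith) J' (fun _ => z') (by
      intro i hi
      rw [hJ', Finset.mem_filter, Finset.mem_Ico] at hi
      refine ⟨hi.1.1, ?_⟩
      rw [hyl i]
      linarith [hi.2])
    calc ∑ j ∈ J', ν.real (mv ιX F j z' (δ / 4)) ≤ ∑ j ∈ J', ν.real (mv ιX F j z' (δ / 2)) :=
          Finset.sum_le_sum fun j _ => hmvmono j z'
      _ ≤ ρ₀ + J'.card * (K₂ * (δ / 2) ^ d) := h1
      _ ≤ 2 * ρ₀ := by linarith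
  have hsum2 : ∑ j ∈ J', ν.real (mv ιX F (N - j) (g^[j] z') (δ / 4)) ≤ 2 * ρ₀ := by
    set J'' : Finset ℕ := J'.image (fun j => N - j) with hJ''
    have hinj : Set.InjOn (fun j => N - j) (J' : Set ℕ) := by
      intro i hi j hj hij
      have hi' := (Finset.mem_Ico.mp (Finset.mem_filter.mp (Finset.mem_coe.mp hi)).1).2
      have hj' := (Finset.mem_Ico.mp (Finset.mem_filter.mp (Finset.mem_coe.mp hj)).1).2
      have hij' : N - i = N - j := hij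
      omega
    have hcard : J''.card = J'.card := Finset.card_image_of_injOn hinj
    have h1 := hshort (δ / 2) (by positivity) (by linarith) J'' (fun i => g^[N - i] z') (by
      intro i hi
      obtain ⟨j, hj, rfl⟩ := Finset.mem_image.mp hi
      rw [hJ', Finset.mem_filter, Finset.mem_Ico] at hj
      obtain ⟨⟨hj1, hj2⟩, hj3⟩ := hj
      refine ⟨by omega, ?_⟩
      have e1 : N - (N - j) = j := by omega
      show ‖ιZ (g^[N - j] (g^[N - (N - j)] z')) - ιZ (g^[N - (N - j)] z')‖ < δ / 2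
      rw [e1, ← Function.iterate_add_apply, Nat.sub_add_cancel hj2.le]
      have e2 : ιZ (g^[N] z') - ιZ (g^[j] z') =
          (ιZ (g^[N] z') - ιZ z') - (ιZ (g^[j] z') - ιZ z') := by abel
      rw [e2, hyl N, hyl j, hbN]
      have e3 := norm_sub_le (y b - y a) (y (a + j) - y a)
      rw [norm_sub_rev] at hdist
      linarith)
    have h2 : ∑ j ∈ J', ν.real (mv ιX F (N - j) (g^[j] z') (δ / 2)) =
        ∑ i ∈ J'', ν.real {x | ‖ιX (fib F i (g^[N - i] z') x) - ιX x‖ < δ / 2} := by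
      rw [hJ'', Finset.sum_image (fun i hi j hj hij => hinj hi hj hij)]
      refine Finset.sum_congr rfl fun j hj => ?_
      rw [hJ', Finset.mem_filter, Finset.mem_Ico] at hj
      have e1 : N - (N - j) = j := by omega
      rw [e1]
      rfl
    calc ∑ j ∈ J', ν.real (mv ιX F (N - j) (g^[j] z') (δ / 4))
        ≤ ∑ j ∈ J', ν.real (mv ιX F (N - j) (g^[j] z') (δ / 2)) :=
          Finset.sum_le_sum fun j _ => hmvmono _ _
      _ ≤ ρ₀ + J''.card * (K₂ * (δ / 2) ^ d) := by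
          rw [h2]
          exact h1
      _ ≤ 2 * ρ₀ := by
          rw [hcard]
          linarith
  have hBadle : ν.real Bad ≤ 4 * ρ₀ := (sbad_le h J' N z' (δ / 4)).trans (by linarith)
  -- the mixing
  have hmix := h.mix z' N
  rw [← hκm] at hmix
  have hθN : C₀ * ((N : ℝ) + 1) ^ (-κm) ≤ C₀ * s ^ (τ * κm) :=
    mul_le_mul_of_nonneg_left (rate_of_gauge hτ0 hs0 hpow hκm0) hC0
  have he0 : 0 ≤ C₀ * ((N : ℝ) + 1) ^ (-κm) := mul_nonneg hC0 (Real.rpow_nonneg (by positivity) _)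
  have hsq : s ^ (τ * κm) = s ^ (2 * D₂) * s ^ (2 * l) * s ^ q := by
    have h1 : τ * κm = ((2 * D₂ : ℕ) : ℝ) + ((2 * l : ℕ) : ℝ) + q := by
      rw [hq]
      push_cast
      ring
    rw [h1, Real.rpow_add hs0, Real.rpow_add hs0, Real.rpow_natCast, Real.rpow_natCast]
  have hsη : s ≤ η₁ / 2 := by linarith
  have hT : a₀ ≤ ν.real (bset ιX c (η₁ - s)) := by
    refine measureReal_mono (fun x hx => ?_)
    have hx' : ‖ιX x - c‖ < η₁ / 2 := hx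
    show ‖ιX x - c‖ < η₁ - s
    linarith
  have hT' : a₀' ≤ ν.real (bset ιX c' (η₁ - s)) := by
    refine measureReal_mono (fun x hx => ?_)
    have hx' : ‖ιX x - c'‖ < η₁ / 2 := hx
    show ‖ιX x - c'‖ < η₁ - s
    linarith
  have hnum : (2 * η₁) ^ D₂ * ((2 * η₁) ^ D₂ * (C₀ * ((N : ℝ) + 1) ^ (-κm) / s ^ (2 * l))) +
      2 * ((4 * s) ^ D₂ * ((4 * s) ^ D₂ * ν.real Bad)) <
      ((2 * s) ^ D₂ * ν.real (bset ιX c (η₁ - s))) * ((2 * s) ^ D₂ * ν.real (bset ιX c' (η₁ - s))) := by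
    have h1 : ((2 * s) ^ D₂ * a₀) * ((2 * s) ^ D₂ * a₀') ≤
        ((2 * s) ^ D₂ * ν.real (bset ιX c (η₁ - s))) * ((2 * s) ^ D₂ * ν.real (bset ιX c' (η₁ - s))) := by
      gcongr
    have h2 : 2 * ((4 * s) ^ D₂ * ((4 * s) ^ D₂ * ν.real Bad)) ≤
        1 / 4 * (((2 * s) ^ D₂ * a₀) * ((2 * s) ^ D₂ * a₀')) := by
      have h3 : (4 * s) ^ D₂ = 2 ^ D₂ * (2 * s) ^ D₂ := by rw [← mul_pow]; congr 1; ring
      have h4 : (4 : ℝ) ^ D₂ = 2 ^ D₂ * 2 ^ D₂ := by rw [← mul_pow]; norm_num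
      have h5 : 2 * ((4 * s) ^ D₂ * ((4 * s) ^ D₂ * ν.real Bad)) ≤
          2 * ((4 * s) ^ D₂ * ((4 * s) ^ D₂ * (4 * ρ₀))) := by gcongr
      refine h5.trans (le_of_eq ?_)
      rw [h3, hρ₀, h4]
      field_simp
      ring
    have h3 : (2 * η₁) ^ D₂ * ((2 * η₁) ^ D₂ * (C₀ * ((N : ℝ) + 1) ^ (-κm) / s ^ (2 * l))) ≤
        1 / 4 * (((2 * s) ^ D₂ * a₀) * ((2 * s) ^ D₂ * a₀')) := by
      have h4 := hsmle s hs0 (by linarith)
      have hsq0 : 0 ≤ s ^ q := Real.rpow_nonneg hs0.le _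
      have h5 : C₀ * ((N : ℝ) + 1) ^ (-κm) / s ^ (2 * l) ≤ C₀ * s ^ (τ * κm) / s ^ (2 * l) := by
        gcongr
      have h6 : C₀ * s ^ (τ * κm) / s ^ (2 * l) = C₀ * s ^ (2 * D₂) * s ^ q := by
        rw [hsq]
        field_simp
      have h7 : (2 * s) ^ D₂ * (2 * s) ^ D₂ = 4 ^ D₂ * s ^ (2 * D₂) := by
        rw [← mul_pow, pow_mul, ← mul_pow]
        congr 1
        ring
      calc (2 * η₁) ^ D₂ * ((2 * η₁) ^ D₂ * (C₀ * ((N : ℝ) + 1) ^ (-κm) / s ^ (2 * l)))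
          ≤ (2 * η₁) ^ D₂ * ((2 * η₁) ^ D₂ * (C₀ * s ^ (2 * D₂) * s ^ q)) := by
            rw [← h6]
            gcongr
        _ = (s ^ q * ((2 * η₁) ^ D₂ * (2 * η₁) ^ D₂ * C₀)) * s ^ (2 * D₂) := by ring
        _ ≤ (s ^ q * Y) * s ^ (2 * D₂) := by
            refine mul_le_mul_of_nonneg_right (mul_le_mul_of_nonneg_left ?_ hsq0) (by positivity)
            rw [hY]
            linarith
        _ ≤ (1 / 4 * 4 ^ D₂ * (a₀ * a₀')) * s ^ (2 * D₂) :=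
            mul_le_mul_of_nonneg_right h4 (by positivity)
        _ = 1 / 4 * ((4 ^ D₂ * s ^ (2 * D₂)) * (a₀ * a₀')) := by ring
        _ = 1 / 4 * (((2 * s) ^ D₂ * (2 * s) ^ D₂) * (a₀ * a₀')) := by rw [h7]
        _ = _ := by ring
    have h4 : 0 < ((2 * s) ^ D₂ * a₀) * ((2 * s) ^ D₂ * a₀') := by positivity
    linarith
  obtain ⟨u, v, hu, hv, ⟨x, hx1, hx2, hx3⟩, x', hx'1, hx'2, hx'3⟩ :=
    pair_selection h.contX (fib_continuous h.contF N z') hmix hs0 hs1 (by linarith) c c' he0 hBadm hnum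
  rw [Function.iterate_one] at hx3 hx'3
  have hd1 : ‖ιX (fib F N z' x) - ιX x'‖ < 4 * s := by
    have h1 : ιX (fib F N z' x) - ιX x' = (ιX (fib F N z' x) - v) - (ιX x' - v) := by abel
    rw [h1]
    exact lt_of_le_of_lt (norm_sub_le _ _) (by linarith)
  have hd2 : ‖ιX (fib F N z' x') - ιX x‖ < 4 * s := by
    have h1 : ιX (fib F N z' x') - ιX x = (ιX (fib F N z' x') - u) - (ιX x - u) := by abel
    rw [h1]
    exact lt_of_le_of_lt (norm_sub_le _ _) (by linarith)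
  have h4s : 4 * s ≤ ε * (δ / 8) ^ r := by
    rw [le_div_iff₀ (by positivity)] at hκ2
    rw [div_pow, ← mul_div_assoc, le_div_iff₀ (by positivity), hs]
    have h1 : (κ * (8 * 8 ^ r)) * δ ^ r ≤ ε * δ ^ r := mul_le_mul_of_nonneg_right hκ2 (by positivity)
    have h2 : 0 < ε * δ ^ r := by positivity
    calc 4 * (κ * δ ^ r) * 8 ^ r = 1 / 2 * ((κ * (8 * 8 ^ r)) * δ ^ r) := by ring
      _ ≤ 1 / 2 * (ε * δ ^ r) := by linarith
      _ ≤ ε * δ ^ r := by linarith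
  have hbase : ‖ιZ (g^[N] z') - ιZ z'‖ ≤ s := by
    rw [hyl N, hbN, norm_sub_rev]
    exact hdist
  have hclose : ∀ x₁ x₂ : X, ‖ιX (fib F N z' x₁) - ιX x₂‖ < 4 * s →
      ‖ιW (F^[N] (z', x₁)) - ιW (z', x₂)‖ < ε * (δ / 8) ^ r := by
    intro x₁ x₂ hx
    rw [h.dist_max, iter_eq h.fst]
    exact max_lt (by linarith) (by linarith)
  have hfar : ∀ x₁ x₂ x₃ : X, x₁ ∉ Bad → ‖ιX (fib F N z' x₁) - ιX x₂‖ < 4 * s → ∀ j, 0 < j → j < N →
      δ / 8 ≤ ‖ιW (F^[j] (z', x₁)) - ιW (z', x₁)‖ ∧ δ / 8 ≤ ‖ιW (F^[j] (z', x₁)) - ιW (z', x₂)‖ := by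
    intro x₁ x₂ x₃ hx hxx j hj hjN
    rw [h.dist_max, h.dist_max, iter_eq h.fst]
    by_cases hjJ : j ∈ J'
    · obtain ⟨b1, b2⟩ := notMem_sbad h.fst hx hjJ hjN.le
      refine ⟨le_trans (by linarith) (le_max_right _ _), le_trans ?_ (le_max_right _ _)⟩
      show δ / 8 ≤ ‖ιX (fib F j z' x₁) - ιX x₂‖
      have h1 : ιX (fib F j z' x₁) - ιX (fib F N z' x₁) =
          (ιX (fib F j z' x₁) - ιX x₂) - (ιX (fib F N z' x₁) - ιX x₂) := by abel
      have h2 := norm_sub_le (ιX (fib F j z' x₁) - ιX x₂) (ιX (fib F N z' x₁) - ιX x₂)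
      rw [← h1] at h2
      linarith
    · have h1 : δ / 4 ≤ ‖ιZ (g^[j] z') - ιZ z'‖ := by
        by_contra hlt
        apply hjJ
        rw [hJ', Finset.mem_filter, Finset.mem_Ico]
        refine ⟨⟨hj, hjN⟩, ?_⟩
        rw [← hyl j]
        exact not_le.mp hlt
      exact ⟨le_trans (by linarith) (le_max_left _ _), le_trans (by linarith) (le_max_left _ _)⟩
  refine ⟨(z', x), (z', x'), N, δ / 8, hN1, by positivity, by linarith, ?_, ?_, ?_, ?_,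
    hclose x x' hd1, hclose x' x hd2, ?_⟩
  · show ‖y a‖ < η
    linarith
  · have h1 : ιX x - c = (ιX x - u) + (u - c) := by abel
    show ‖ιX x - c‖ < η
    rw [h1]
    exact lt_of_le_of_lt (norm_add_le _ _) (by linarith)
  · show ‖y a‖ < η
    linarith
  · have h1 : ιX x' - c' = (ιX x' - v) + (v - c') := by abel
    show ‖ιX x' - c'‖ < η
    rw [h1]
    exact lt_of_le_of_lt (norm_add_le _ _) (by linarith)
  · intro j hj hjN
    obtain ⟨b1, b2⟩ := hfar x x' x hx1 hd1 j hj hjN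
    obtain ⟨b3, b4⟩ := hfar x' x x hx'1 hd2 j hj hjN
    exact ⟨b1, b2, b4, b3⟩

end Pool.Agent.XP
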